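import Pool.Agent.K7.H41.BL.Okv

set_option autoImplicit false

/-!
The forest of a connected graph with a root: a point is below `b` if `b` separates it from the
root. The classes of siblings, with their parents, are the blocks.
-/

namespace Pool.Agent.K7.H41.BL

open Pool.Agent.K7.H41.NC (Stp)

/-- One step which avoids `b`. -/
def Av (N : ℕ → ℕ → Prop) (b u v : ℕ) : Prop := N u v ∧ u ≠ b ∧ v ≠ b

/-- `u` and `v` are connected by a path which avoids `b`. -/
def C (N : ℕ → ℕ → Prop) (b u v : ℕ) : Prop := u ≠ b ∧ ∃ n, Stp (Av N b) n u v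

/-- `b` separates `w` from the root. -/
def Dm (N : ℕ → ℕ → Prop) (r b w : ℕ) : Prop := w ≠ b ∧ ¬ C N b w r

/-- The parents. -/
def PN (N : ℕ → ℕ → Prop) (r b v : ℕ) : Prop := Dm N r b v ∧ ∀ u, Dm N r u v → u = b ∨ Dm N r u b

/-- The classes of siblings. -/
def EN (N : ℕ → ℕ → Prop) (r v w : ℕ) : Prop := ∃ b, (PN N r b v ∧ PN N r b w) ∧ C N b v w

/-- The points `u` and `v` are not separated by a point. -/
def Ins (N : ℕ → ℕ → Prop) (u v : ℕ) : Prop := ∀ z, z ≠ u → z ≠ v → C N z u v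

/-- Blocks: maximal sets, with at least two points, of points which are not separated. -/
def Blk (N : ℕ → ℕ → Prop) (B : ℕ → Prop) : Prop := (∃ u v, B u ∧ B v ∧ u ≠ v) ∧
  (∀ u v, B u → B v → u ≠ v → Ins N u v) ∧ ∀ u, (∀ v, B v → u ≠ v → Ins N u v) → B u

section facts

variable {N : ℕ → ℕ → Prop} {r b c u v w z s : ℕ}

theorem c_refl (h : u ≠ b) : C N b u u := ⟨h, 0, rfl⟩

theorem c_edge (h : N u v) (h1 : u ≠ b) (h2 : v ≠ b) : C N b u v := ⟨h1, 1, v, ⟨h, h1, h2⟩, rfl⟩

theorem c_ne (h : C N b u v) : v ≠ b := by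
  obtain ⟨h1, n, hn⟩ := h
  have key : ∀ n u, u ≠ b → Stp (Av N b) n u v → v ≠ b := by
    intro n
    induction n with
    | zero =>
      intro u h1 h2
      obtain rfl : v = u := h2
      exact h1
    | succ n ih =>
      rintro u - ⟨u', h2, h3⟩
      exact ih u' h2.2.2 h3
  exact key n u h1 hn

theorem c_trans (h1 : C N b u v) (h2 : C N b v w) : C N b u w := by
  obtain ⟨h3, n, hn⟩ := h1
  obtain ⟨h4, m, hm⟩ := h2
  exact ⟨h3, n + m, stp_add n m _ _ _ hn hm⟩

theorem stp_symm {N : ℕ → ℕ → Prop} (hs : ∀ u v, N u v → N v u) (n : ℕ) :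
    ∀ u v, Stp N n u v → Stp N n v u := by
  induction n with
  | zero => exact fun u v h => Eq.symm h
  | succ n ih =>
    rintro u v ⟨u', h1, h2⟩
    exact stp_add n 1 v u' u (ih u' v h2) ⟨u, hs _ _ h1, rfl⟩

theorem c_symm (hs : ∀ u v, N u v → N v u) (h : C N b u v) : C N b v u := by
  have h1 := c_ne h
  obtain ⟨h2, n, hn⟩ := h
  exact ⟨h1, n, stp_symm (fun u v h => ⟨hs _ _ h.1, h.2.2, h.2.1⟩) n u v hn⟩

theorem not_c_left : ¬ C N b b v := fun h => h.1 rfl

theorem not_c_right : ¬ C N b u b := fun h => c_ne h rfl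

/-- A walk from `v` to `b` meets `b` before `z` or `z` before `b`. -/
theorem first (hbz : b ≠ z) (n : ℕ) : ∀ v, Stp N n v b → v ≠ b → v ≠ z → C N z v b ∨ C N b v z := by
  induction n with
  | zero => exact fun v h1 h2 => absurd (Eq.symm h1) h2
  | succ n ih =>
    rintro v ⟨u, h1, h2⟩ h3 h4
    by_cases hb : u = b
    · subst hb
      exact Or.inl (c_edge h1 h4 hbz)
    · by_cases hz : u = z
      · subst hz
        exact Or.inr (c_edge h1 h3 hb)
      · exact (ih u h2 hb hz).imp (fun h => c_trans (c_edge h1 h4 hz) h)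
          fun h => c_trans (c_edge h1 h3 hb) h

/-- A point which separates `w` from the root is nearer to the root. -/
theorem near (n : ℕ) : ∀ w, Stp N n w r → Dm N r b w → ∃ m, m < n ∧ Stp N m b r := by
  induction n with
  | zero =>
    rintro w h1 ⟨h2, h3⟩
    obtain rfl : r = w := h1
    exact absurd (c_refl h2) h3
  | succ n ih =>
    rintro w ⟨u, h1, h2⟩ ⟨h3, h4⟩
    by_cases hu : u = b
    · subst hu
      exact ⟨n, Nat.lt_succ_self n, h2⟩
    · obtain ⟨m, h5, h6⟩ := ih u h2 ⟨hu, fun h => h4 (c_trans (c_edge h1 h3 hu) h)⟩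
      exact ⟨m, h5.trans (Nat.lt_succ_self n), h6⟩

/-- A connected graph with a root. -/
structure Rg (N : ℕ → ℕ → Prop) (r : ℕ) : Prop where
  hs : ∀ u v, N u v → N v u
  hc : ∀ u, ∃ n, Stp N n u r

namespace Rg

theorem fst (h : Rg N r) (h1 : b ≠ z) (h2 : v ≠ b) (h3 : v ≠ z) : C N z v b ∨ C N b v z := by
  obtain ⟨n, hn⟩ := h.hc v
  obtain ⟨m, hm⟩ := h.hc b
  exact first h1 (n + m) v (stp_add n m _ _ _ hn (stp_symm h.hs m _ _ hm)) h2 h3

theorem root (h1 : w ≠ r) : Dm N r r w := ⟨h1, not_c_right⟩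

theorem nroot : ¬ Dm N r b r := fun h => h.2 (c_refl h.1)

theorem anti (h : Rg N r) (h1 : Dm N r b c) (h2 : Dm N r c b) : False := by
  have h3 : r ≠ b := by
    rintro rfl
    exact nroot h2
  have h4 : r ≠ c := by
    rintro rfl
    exact nroot h1
  rcases h.fst h2.1 h3 h4 with h5 | h5
  · exact h2.2 (c_symm h.hs h5)
  · exact h1.2 (c_symm h.hs h5)

theorem trans (h : Rg N r) (h1 : Dm N r b c) (h2 : Dm N r c w) : Dm N r b w := by
  have h3 : w ≠ b := by
    rintro rfl
    exact h.anti h1 h2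
  refine ⟨h3, fun h4 => ?_⟩
  have h5 : r ≠ b := c_ne h4
  have h6 : r ≠ c := by
    rintro rfl
    exact nroot h1
  -- the root is connected to `b` outside `c`
  have h7 : C N c r b := by
    rcases h.fst h1.1 h6 h5 with h7 | h7
    · exact absurd (c_symm h.hs h7) h1.2
    · exact h7
  rcases h.fst h1.1 h2.1 h3 with h8 | h8
  · exact h1.2 (c_trans (c_symm h.hs h8) h4)
  · exact h2.2 (c_trans h8 (c_symm h.hs h7))

theorem lin (h : Rg N r) (h1 : Dm N r b v) (h2 : Dm N r z v) (h3 : b ≠ z) :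
    Dm N r b z ∨ Dm N r z b := by
  by_contra hc
  push Not at hc
  obtain ⟨h4, h5⟩ := hc
  have h6 : C N b z r := by
    by_contra hx
    exact h4 ⟨h3.symm, hx⟩
  have h7 : C N z b r := by
    by_contra hx
    exact h5 ⟨h3, hx⟩
  rcases h.fst h3 h1.1 h2.1 with h8 | h8
  · exact h2.2 (c_trans h8 h7)
  · exact h1.2 (c_trans h8 h6)

/-- The immediate predecessor exists. -/
theorem ex (h : Rg N r) (hv : v ≠ r) : ∃ b, PN N r b v := by
  classical
  -- the distance to the root
  have hd : ∃ d : ℕ → ℕ, ∀ b w, Dm N r b w → d b < d w := by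
    refine ⟨fun w => Nat.find (h.hc w), fun b w hb => ?_⟩
    obtain ⟨m, h1, h2⟩ := near _ w (Nat.find_spec (h.hc w)) hb
    exact (Nat.find_min' (h.hc b) h2).trans_lt h1
  obtain ⟨d, hd⟩ := hd
  -- the farthest one
  have hex : ∃ k b, Dm N r b v ∧ d v = d b + k := by
    have h1 := hd r v (root hv)
    exact ⟨d v - d r, r, root hv, by omega⟩
  obtain ⟨b, h1, h2⟩ := Nat.find_spec hex
  refine ⟨b, h1, fun u hu => ?_⟩
  by_cases hub : u = b
  · exact Or.inl hub
  · right
    rcases h.lin hu h1 hub with h3 | h3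
    · exact h3
    · have h4 := hd _ _ h3
      have h5 := hd _ _ hu
      have h6 := Nat.find_min' hex ⟨u, hu, (by omega : d v = d u + (d v - d u))⟩
      omega

theorem uniq (h : Rg N r) (h1 : PN N r b v) (h2 : PN N r c v) : b = c := by
  rcases h1.2 c h2.1 with h3 | h3
  · exact h3.symm
  · rcases h2.2 b h1.1 with h4 | h4
    · exact h4
    · exact (h.anti h3 h4).elim

theorem stp_dm (h : Rg N r) (n : ℕ) : ∀ w b, Stp (Up (PN N r)) n w b → b = w ∨ Dm N r b w := by
  induction n with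
  | zero => exact fun w b h1 => Or.inl h1
  | succ n ih =>
    rintro w b ⟨c, h1, h2⟩
    right
    have h1' : PN N r c w := h1
    rcases ih c b h2 with rfl | h3
    · exact h1'.1
    · exact h.trans h3 h1'.1

/-- The forest. -/
theorem forest (h : Rg N r) : Fst (PN N r) (EN N r) where
  fn _ _ _ h1 h2 := h.uniq h1 h2
  ac b := by
    rintro ⟨c, h1, n, h2⟩
    rcases h.stp_dm n c b h2 with rfl | h3
    · exact h1.1.1 rfl
    · exact h.anti h3 h1.1
  es v w := by
    rintro ⟨b, ⟨h1, h2⟩, h3⟩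
    exact ⟨b, ⟨h2, h1⟩, c_symm h.hs h3⟩
  et u v w := by
    rintro ⟨b, ⟨h1, h2⟩, h3⟩ ⟨c, ⟨h4, h5⟩, h6⟩
    obtain rfl := h.uniq h2 h4
    exact ⟨b, ⟨h1, h5⟩, c_trans h3 h6⟩
  ep v w := by
    rintro ⟨b, h1, -⟩
    exact ⟨b, h1⟩
  er b v h1 := ⟨b, ⟨h1, h1⟩, c_refl h1.1.1⟩

/-- The children of `b` are not separated from `b`. -/
theorem ins_par (h : Rg N r) (h1 : PN N r b v) : Ins N b v := by
  intro z hzb hzv
  obtain ⟨h2, h3⟩ := h1
  rcases h.fst (b := b) (z := z) hzb.symm h2.1 hzv.symm with h4 | h4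
  · exact c_symm h.hs h4
  · by_contra h5
    have h6 : Dm N r b z := ⟨hzb, fun h7 => h2.2 (c_trans h4 h7)⟩
    have h7 : C N z b r := by
      by_contra h8
      exact h.anti h6 ⟨hzb.symm, h8⟩
    have h8 : Dm N r z v := ⟨hzv.symm, fun h9 => h5 (c_trans h7 (c_symm h.hs h9))⟩
    rcases h3 z h8 with h9 | h9
    · exact hzb h9
    · exact h9.2 h7

theorem ins_symm (hs : ∀ u v, N u v → N v u) (h : Ins N u v) : Ins N v u :=
  fun z h1 h2 => c_symm hs (h z h2 h1)

/-- Equivalent siblings are not separated. -/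
theorem ins_sib (h : Rg N r) (h1 : EN N r v w) : Ins N v w := by
  obtain ⟨b, ⟨h2, h3⟩, h4⟩ := h1
  intro z hzv hzw
  by_cases hzb : z = b
  · subst hzb
    exact h4
  · exact c_trans (c_symm h.hs (h.ins_par h2 z hzb hzv)) (h.ins_par h3 z hzb hzw)

/-- A class of siblings with its parent is a block. -/
theorem blk (h : Rg N r) (hs : PN N r b s) : Blk N fun w => w = b ∨ EN N r s w := by
  have ne : ∀ w, EN N r s w → PN N r b w ∧ C N b s w := by
    rintro w ⟨c, ⟨h1, h2⟩, h3⟩
    obtain rfl := h.uniq hs h1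
    exact ⟨h2, h3⟩
  refine ⟨⟨b, s, Or.inl rfl, Or.inr (h.forest.er b s hs), (hs.1.1).symm⟩, ?_, ?_⟩
  · rintro u v (rfl | hu) (rfl | hv) huv
    · exact absurd rfl huv
    · exact h.ins_par (ne v hv).1
    · exact ins_symm h.hs (h.ins_par (ne u hu).1)
    · exact h.ins_sib (h.forest.et _ _ _ (h.forest.es _ _ hu) hv)
  · intro u hu
    by_cases hub : u = b
    · exact Or.inl hub
    · right
      by_cases hus : u = s
      · subst hus
        exact h.forest.er b u hs
      · have h1 : C N b s u := c_symm h.hs (hu s (Or.inr (h.forest.er b s hs)) hus b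
          (Ne.symm hub) (hs.1.1).symm)
        have h2 : Dm N r b u := ⟨hub, fun h3 => hs.1.2 (c_trans h1 h3)⟩
        refine ⟨b, ⟨hs, h2, fun z hz => ?_⟩, h1⟩
        by_cases hzb : z = b
        · exact Or.inl hzb
        · right
          refine ⟨Ne.symm hzb, fun h3 => hz.2 ?_⟩
          exact c_trans (hu b (Or.inl rfl) hub z hz.1.symm hzb) h3

/-- A set of pairwise adjacent points is contained in a class of siblings with its parent. -/
theorem clique (h : Rg N r) {ι : Type} (t : ι → ℕ) (hN : ∀ j l, t j ≠ t l → N (t j) (t l))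
    (ht : ∃ j l, t j ≠ t l) :
    ∃ b, (∀ j, t j = b ∨ PN N r b (t j)) ∧ ∀ j l, t j ≠ b → t l ≠ b → EN N r (t j) (t l) := by
  -- points outside the tuple
  have out : ∀ z j l, t j ≠ z → t l ≠ z → Dm N r z (t j) → Dm N r z (t l) := by
    intro z j l h1 h2 h3
    by_cases h4 : t j = t l
    · rw [← h4]
      exact h3
    · exact ⟨h2, fun h5 => h3.2 (c_trans (c_edge (hN j l h4) h1 h2) h5)⟩
  have fin : ∀ b, (∀ j, t j = b ∨ PN N r b (t j)) →
      ∀ j l, t j ≠ b → t l ≠ b → EN N r (t j) (t l) := by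
    intro b hb j l h1 h2
    refine ⟨b, ⟨(hb j).resolve_left h1, (hb l).resolve_left h2⟩, ?_⟩
    by_cases h3 : t j = t l
    · rw [← h3]
      exact c_refl h1
    · exact c_edge (hN j l h3) h1 h2
  by_cases h0 : ∃ j l, Dm N r (t j) (t l)
  · obtain ⟨j0, l0, h1⟩ := h0
    have h2 : ∀ l, t l = t j0 ∨ PN N r (t j0) (t l) := by
      intro l
      by_cases hl : t l = t j0
      · exact Or.inl hl
      · right
        refine ⟨out _ l0 l h1.1 hl h1, fun u hu => ?_⟩
        by_cases hu' : u = t j0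
        · exact Or.inl hu'
        · right
          exact out u l j0 hu.1 (Ne.symm hu') hu
    exact ⟨t j0, h2, fin _ h2⟩
  · push Not at h0
    obtain ⟨j0, l0, h1⟩ := ht
    have h2 : t j0 ≠ r := by
      intro h3
      have h4 : t l0 ≠ r := fun h5 => h1 (h3.trans h5.symm)
      have h5 := h0 j0 l0
      rw [h3] at h5
      exact h5 (root h4)
    obtain ⟨b, h3⟩ := h.ex h2
    have hb : ∀ j, t j ≠ b := by
      intro j hj
      refine h0 j j0 ?_
      rw [hj]
      exact h3.1
    have h4 : ∀ j, t j = b ∨ PN N r b (t j) := by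
      intro j
      right
      refine ⟨out b j0 j (hb j0) (hb j) h3.1, fun u hu => ?_⟩
      have h5 : t j0 ≠ u := by
        intro h6
        refine h0 j0 j ?_
        rw [h6]
        exact hu
      exact h3.2 u (out u j j0 hu.1 h5 hu)
    exact ⟨b, h4, fin _ h4⟩

end Rg

end facts

end Pool.Agent.K7.H41.BL
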