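import Pool.Agent.K7.H41.BL.Frs
import Pool.Agent.H533R2.VS.KIS

set_option autoImplicit false

/-!
The two classes are coanalytic and invariant.
-/

namespace Pool.Agent.K7.H41.BL

open MeasureTheory
open Pool.Agent.H533R2.VO (RS RIso)
open Pool.Agent.H533R2.VS
open Pool.Agent.TH425.FF
open Pool.Agent.K7.H41.NC (Stp Ok xex xall tpn m_dec m_eq m_at p2_act)

variable {A : ℕ → ℕ} {V : RS A → Prop}

theorem kis_nat (n z : ℕ) : Measurable fun p : RS A × (ℕ → ℕ) => p.2 n = z :=
  kis_atom ((continuous_apply n).comp continuous_snd) continuous_const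

/-- Classes defined with enumerations. -/
theorem coan_enum {G : RS A → (ℕ → ℕ) → Prop} {F : RS A × (ℕ → ℕ) → RS A}
    (hG : Measurable fun p : RS A × (ℕ → ℕ) => G p.1 p.2) (hF : Continuous F) (hV : Coan V) :
    Coan fun x => ∀ f, G x f → V (F (x, f)) := by
  unfold Coan at *
  have P1 : PolishSpace (RS A) := kis_pRS A
  have P2 : PolishSpace (RS A × (ℕ → ℕ)) := kis_pP A
  have e1 : {x : RS A | ¬ ∀ f, G x f → V (F (x, f))} =
      Prod.fst '' ({p : RS A × (ℕ → ℕ) | G p.1 p.2} ∩ F ⁻¹' {x : RS A | ¬ V x}) := by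
    ext x
    simp only [Set.mem_ofPred_eq, Set.mem_image, Set.mem_inter_iff, Set.mem_preimage]
    constructor
    · intro h
      by_contra hcon
      apply h
      intro f hf
      by_contra hv
      exact hcon ⟨(x, f), ⟨hf, hv⟩, rfl⟩
    · rintro ⟨⟨x', f⟩, ⟨hf, hv⟩, rfl⟩ h
      exact hv (h f hf)
  rw [e1]
  refine AnalyticSet.image_of_continuous (kis_inter ?_ (hV.preimage hF)) continuous_fst
  exact (measurableSet_setOfPred.2 hG).analyticSet

section meas

variable {X : Type} [MeasurableSpace X] {N : X → ℕ → ℕ → Prop} {B : X → ℕ → Prop}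

theorem b_Ins (h : ∀ u v, Measurable fun x => N x u v) (u v : ℕ) :
    Measurable fun x => Ins (N x) u v :=
  Measurable.forall fun z => measurable_const.imp (measurable_const.imp (b_C h z u v))

theorem b_Blk (h : ∀ u v, Measurable fun x => N x u v)
    (hB : ∀ u, Measurable fun x => B x u) :
    Measurable fun x => Blk (N x) (B x) :=
  (Measurable.exists fun u => Measurable.exists fun v => (hB u).and ((hB v).and
    measurable_const)).and ((Measurable.forall fun u => Measurable.forall fun v =>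
      (hB u).imp ((hB v).imp (measurable_const.imp (b_Ins h u v)))).and
        (Measurable.forall fun u => (Measurable.forall fun v => (hB v).imp
          (measurable_const.imp (b_Ins h u v))).imp (hB u)))

end meas

theorem cont_rmc : Continuous (rmc : RS A → RS A) := by
  classical
  refine continuous_pi fun i => continuous_pi fun v => ?_
  unfold rmc
  by_cases hv : ∃ j l, v j ≠ v l
  · simp only [if_pos hv]
    exact (continuous_apply _).comp (continuous_apply _)
  · simp only [if_neg hv]
    exact continuous_const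

theorem cont_erf (φ : ℕ) (p : List ℕ) : Continuous (erf φ p : RS A → RS A) := by
  refine continuous_pi fun i => continuous_pi fun v => ?_
  unfold erf
  by_cases hv : i = φ
  · simp only [if_pos hv]
    exact continuous_const
  · simp only [if_neg hv]
    exact (continuous_apply _).comp (continuous_apply _)

theorem cont_sub : Continuous (fun p : RS A × (ℕ → ℕ) => rmc (fun i v => p.1 i (p.2 ∘ v) : RS A)) := by
  have h := kis_F (a := A) (fun _ => True)
  simp only [if_true] at h
  exact cont_rmc.comp h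

theorem adj_pair (u v : ℕ) : Measurable fun p : RS A × (ℕ → ℕ) => adj p.1 u v :=
  (b_adj u v).comp measurable_fst

theorem inj_meas : Measurable fun p : RS A × (ℕ → ℕ) => Function.Injective p.2 :=
  Measurable.forall fun m => Measurable.forall fun n =>
    (kis_atom ((continuous_apply m).comp continuous_snd)
      ((continuous_apply n).comp continuous_snd)).imp measurable_const

theorem ran_meas (w : ℕ) : Measurable fun p : RS A × (ℕ → ℕ) => ∃ n, p.2 n = w :=
  Measurable.exists fun n => kis_nat n w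

theorem coan_bks (hV : Coan V) : Coan (Bks V) := by
  have h1 := coan_enum (A := A) (V := V)
    (G := fun x f => Function.Injective f ∧ Blk (adj x) fun w => ∃ n, f n = w)
    (F := fun p => rmc (fun i v => p.1 i (p.2 ∘ v)))
    (inj_meas.and (b_Blk adj_pair ran_meas)) cont_sub hV
  have h2 : (Bks V) = fun x => ∀ f : ℕ → ℕ, (Function.Injective f ∧
      Blk (adj x) fun w => ∃ n, f n = w) → V (rmc fun i v => x i (f ∘ v)) := by
    funext x
    refine propext ⟨fun h f hf => h _ hf.2 f hf.1 fun w => Iff.rfl, fun h B hB f hf hw => ?_⟩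
    have h3 : B = fun w => ∃ n, f n = w := funext fun w => propext (hw w).symm
    subst h3
    exact h f ⟨hf, hB⟩
  rw [h2]
  exact h1

section canon

variable {N N' : ℕ → ℕ → Prop} (σ : Equiv.Perm ℕ)

theorem r_Ins (h : ∀ u v, N' (σ u) (σ v) ↔ N u v) (u v : ℕ) :
    Ins N' (σ u) (σ v) ↔ Ins N u v :=
  xall σ fun z => imp_congr (not_congr σ.injective.eq_iff) (imp_congr
    (not_congr σ.injective.eq_iff) (r_C σ h z u v))

theorem r_Blk (h : ∀ u v, N' (σ u) (σ v) ↔ N u v) (B : ℕ → Prop) :
    Blk N' B ↔ Blk N fun w => B (σ w) :=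
  and_congr (xex σ fun u => xex σ fun v => and_congr Iff.rfl (and_congr Iff.rfl
    (not_congr σ.injective.eq_iff))) (and_congr (xall σ fun u => xall σ fun v =>
      imp_congr Iff.rfl (imp_congr Iff.rfl (imp_congr (not_congr σ.injective.eq_iff)
        (r_Ins σ h u v)))) (xall σ fun u => imp_congr (xall σ fun v => imp_congr Iff.rfl
          (imp_congr (not_congr σ.injective.eq_iff) (r_Ins σ h u v))) Iff.rfl))

end canon

theorem sub_act (σ : Equiv.Perm ℕ) (x : RS A) (f : ℕ → ℕ) :
    (fun (i : ℕ) (v : Fin (A i) → ℕ) => act σ x i (f ∘ v)) = fun i v => x i ((σ.symm ∘ f) ∘ v) :=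
  rfl

theorem ran_act (σ : Equiv.Perm ℕ) {f : ℕ → ℕ} {B : ℕ → Prop} (h : ∀ w, (∃ n, f n = w) ↔ B w)
    (w : ℕ) : (∃ n, (σ.symm ∘ f) n = w) ↔ B (σ w) := by
  rw [← h]
  refine exists_congr fun n => ?_
  show σ.symm (f n) = w ↔ _
  exact Equiv.symm_apply_eq σ

theorem inv_bks : Inv (Bks V) := by
  intro x y hxy h
  obtain ⟨σ, rfl⟩ := exk_act hxy
  intro B hB f hf hw
  rw [r_Blk σ (r_adj σ x)] at hB
  exact h _ hB (σ.symm ∘ f) (σ.symm.injective.comp hf) (ran_act σ hw)

/-- **The closure theorem for blocks.** -/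
theorem ok_bks (hA : ∀ i, 0 < A i) (h : Ok V) : Ok (Bks V) :=
  ⟨vcu_blocks hA h, coan_bks h.co, inv_bks⟩

/-! ### Forests -/

theorem coan_and {a : ℕ → ℕ} {V W : RS a → Prop} (h : Coan V) (h' : Coan W) :
    Coan fun x => V x ∧ W x := by
  unfold Coan at *
  have e : {x : RS a | ¬ (V x ∧ W x)} = {x | ¬ V x} ∪ {x | ¬ W x} := by
    ext x
    simp only [Set.mem_ofPred_eq, Set.mem_union]
    tauto
  rw [e]
  exact kis_union h h'

theorem coan_borel {a : ℕ → ℕ} {V : RS a → Prop} (h : Measurable V) : Coan V := by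
  have P1 : PolishSpace (RS a) := kis_pRS a
  exact (measurableSet_setOfPred.2 h.not).analyticSet

theorem coan_all {a : ℕ → ℕ} {V : ℕ → RS a → Prop} (h : ∀ b, Coan (V b)) :
    Coan fun x => ∀ b, V b x := by
  unfold Coan at *
  have e : {x : RS a | ¬ ∀ b, V b x} = ⋃ b, {x | ¬ V b x} := by
    ext x
    simp only [Set.mem_ofPred_eq, Set.mem_iUnion, not_forall]
  rw [e]
  exact AnalyticSet.iUnion h

theorem coan_frs (φ : ℕ) (hV : Coan V) : Coan (Frs φ V) := by
  have hm : ∀ b v, Measurable fun x : RS A => Pf φ x b v := fun b v => m_eq (m_at φ _)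
  refine coan_and (coan_borel ?_) (coan_and (coan_borel ?_) (coan_and (coan_borel ?_)
    (coan_all fun b => ?_)))
  · exact Measurable.forall fun b => Measurable.forall fun b' => Measurable.forall fun v =>
      (hm b v).imp ((hm b' v).imp measurable_const)
  · exact Measurable.forall fun b => (b_M hm b b).not
  · exact Measurable.forall fun i => measurable_const.imp (Measurable.forall fun t =>
      (b_at measurable_id i t).imp (measurable_const.imp (Measurable.exists fun b =>
        Measurable.forall fun j => measurable_const.or (hm b (t j)))))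
  · have h1 := coan_enum (A := A) (V := V)
      (G := fun x f => Function.Injective f ∧ ∀ w, (∃ n, f n = w) ↔ w = b ∨ Pf φ x b w)
      (F := fun p => erf φ [] (rmc (fun i v => p.1 i (p.2 ∘ v))))
      (inj_meas.and (Measurable.forall fun w => (ran_meas w).iff
        (measurable_const.or ((hm b w).comp measurable_fst))))
      ((cont_erf φ []).comp cont_sub) hV
    have h2 : (fun x : RS A => ∀ f : ℕ → ℕ, Function.Injective f →
        (∀ w, (∃ n, f n = w) ↔ w = b ∨ Pf φ x b w) → V (erf φ [] (rmc fun i v => x i (f ∘ v)))) =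
        fun x => ∀ f : ℕ → ℕ, (Function.Injective f ∧
          ∀ w, (∃ n, f n = w) ↔ w = b ∨ Pf φ x b w) →
          V (erf φ [] (rmc fun i v => x i (f ∘ v))) := by
      funext x
      exact propext ⟨fun h f hf => h f hf.1 hf.2, fun h f hf hw => h f ⟨hf, hw⟩⟩
    rw [h2]
    exact h1

theorem inv_frs (φ : ℕ) : Inv (Frs φ V) := by
  intro x y hxy h
  obtain ⟨σ, rfl⟩ := exk_act hxy
  have hp := r_Pf φ σ x
  obtain ⟨h1, h2, h3, h4⟩ := h
  refine ⟨?_, ?_, ?_, ?_⟩
  · intro b b' v k1 k2
    obtain ⟨b, rfl⟩ := σ.surjective b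
    obtain ⟨b', rfl⟩ := σ.surjective b'
    obtain ⟨v, rfl⟩ := σ.surjective v
    rw [h1 b b' v ((hp b v).1 k1) ((hp b' v).1 k2)]
  · intro b k1
    obtain ⟨b, rfl⟩ := σ.surjective b
    exact h2 b ((r_M σ hp b b).1 k1)
  · intro i hi t ht hne
    obtain ⟨j, l, hjl⟩ := hne
    obtain ⟨b, hb⟩ := h3 i hi (σ.symm ∘ t) ht ⟨j, l, fun k => hjl (σ.symm.injective k)⟩
    refine ⟨σ b, fun j => ?_⟩
    have h5 := hb j
    have h6 : σ.symm (t j) = b ↔ t j = σ b := Equiv.symm_apply_eq σ
    rcases h5 with h5 | h5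
    · exact Or.inl (h6.1 h5)
    · right
      have h7 := (hp b (σ.symm (t j))).2 h5
      rw [σ.apply_symm_apply] at h7
      exact h7
  · intro b f hf hw
    obtain ⟨b, rfl⟩ := σ.surjective b
    refine h4 b (σ.symm ∘ f) (σ.symm.injective.comp hf) fun w => ?_
    rw [ran_act σ hw w, σ.injective.eq_iff, hp]

/-- **The closure theorem for forests.** -/
theorem ok_frs (hA : ∀ i, 0 < A i) {φ : ℕ} (hφ : A φ = 2) (h : Ok V) : Ok (Frs φ V) :=
  ⟨vcu_forests hA hφ h, coan_frs φ h.co, inv_frs φ⟩

end Pool.Agent.K7.H41.BL
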