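import Pool.Agent.K7.H41.BL.Grf

set_option autoImplicit false

/-!
Structures whose infinite blocks are in a class.
-/

namespace Pool.Agent.K7.H41.BL

open Pool.Agent.H533R2.VO (RS RIso)
open Pool.Agent.H533R2.VS
open Pool.Agent.K7.H41.NC (Stp Ok)

variable {A : ℕ → ℕ} {V : RS A → Prop}

section sub

variable {N N' : ℕ → ℕ → Prop} {e : ℕ → ℕ}

theorem stp_sub (h : ∀ u v, N' u v ↔ N (e u) (e v)) (hr : ∀ u w, N (e u) w → ∃ n, e n = w)
    (he : Function.Injective e) (n : ℕ) : ∀ u v, Stp N' n u v ↔ Stp N n (e u) (e v) := by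
  induction n with
  | zero => exact fun u v => he.eq_iff.symm
  | succ n ih =>
    intro u v
    constructor
    · rintro ⟨w, h1, h2⟩
      exact ⟨e w, (h u w).1 h1, (ih w v).1 h2⟩
    · rintro ⟨w, h1, h2⟩
      obtain ⟨w, rfl⟩ := hr u w h1
      exact ⟨w, (h u w).2 h1, (ih w v).2 h2⟩

theorem c_sub (h : ∀ u v, N' u v ↔ N (e u) (e v)) (hr : ∀ u w, N (e u) w → ∃ n, e n = w)
    (he : Function.Injective e) (b u v : ℕ) : C N' b u v ↔ C N (e b) (e u) (e v) := by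
  refine and_congr (not_congr he.eq_iff.symm) (exists_congr fun n => ?_)
  exact stp_sub (N := Av N (e b)) (N' := Av N' b) (fun p q => and_congr (h p q)
    (and_congr (not_congr he.eq_iff.symm) (not_congr he.eq_iff.symm)))
    (fun p q k1 => hr p q k1.1) he n u v

theorem stp_ran (hr : ∀ u w, N (e u) w → ∃ n, e n = w) (n : ℕ) : ∀ u w, Stp N n (e u) w →
    ∃ k, e k = w := by
  induction n with
  | zero => exact fun u w h1 => ⟨u, (Eq.symm h1)⟩
  | succ n ih =>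
    rintro u w ⟨v, h1, h2⟩
    obtain ⟨v, rfl⟩ := hr u v h1
    exact ih v w h2

theorem stp_av {z : ℕ} (hz : ∀ n, e n ≠ z) (hr : ∀ u w, N (e u) w → ∃ n, e n = w) (n : ℕ) :
    ∀ u w, Stp N n (e u) w → Stp (Av N z) n (e u) w := by
  induction n with
  | zero => exact fun u w h1 => h1
  | succ n ih =>
    rintro u w ⟨v, h1, h2⟩
    obtain ⟨v, rfl⟩ := hr u v h1
    exact ⟨e v, ⟨h1, hz u, hz v⟩, ih v w h2⟩

theorem ins_sub (h : ∀ u v, N' u v ↔ N (e u) (e v)) (hr : ∀ u w, N (e u) w → ∃ n, e n = w)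
    (he : Function.Injective e) (hc : ∀ u v, ∃ n, Stp N n (e u) (e v)) (u v : ℕ) :
    Ins N' u v ↔ Ins N (e u) (e v) := by
  constructor
  · intro h1 z hu hv
    by_cases hz : ∃ n, e n = z
    · obtain ⟨z, rfl⟩ := hz
      exact (c_sub h hr he z u v).1 (h1 z (fun k => hu (congrArg e k)) fun k => hv (congrArg e k))
    · push Not at hz
      obtain ⟨n, hn⟩ := hc u v
      exact ⟨hz u, n, stp_av hz hr n _ _ hn⟩
  · intro h1 z hu hv
    exact (c_sub h hr he z u v).2 (h1 (e z) (fun k => hu (he k)) fun k => hv (he k))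

theorem exists_ne2 (u v : ℕ) : ∃ z, z ≠ u ∧ z ≠ v := ⟨u + v + 1, by omega, by omega⟩

theorem stp_mono {M M' : ℕ → ℕ → Prop} (h : ∀ u v, M u v → M' u v) (n : ℕ) : ∀ u v, Stp M n u v →
    Stp M' n u v := by
  induction n with
  | zero => exact fun u v h1 => h1
  | succ n ih =>
    rintro u v ⟨w, h1, h2⟩
    exact ⟨w, h u w h1, ih w v h2⟩

theorem blk_sub (h : ∀ u v, N' u v ↔ N (e u) (e v)) (hr : ∀ u w, N (e u) w → ∃ n, e n = w)
    (he : Function.Injective e) (hc : ∀ u v, ∃ n, Stp N n (e u) (e v))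
    (hs : ∀ u v, N u v → N v u) {B : ℕ → Prop} (hB : Blk N' B) :
    Blk N fun w => ∃ n, B n ∧ e n = w := by
  obtain ⟨⟨u0, v0, h1, h2, h3⟩, h4, h5⟩ := hB
  refine ⟨⟨e u0, e v0, ⟨u0, h1, rfl⟩, ⟨v0, h2, rfl⟩, fun k => h3 (he k)⟩, ?_, ?_⟩
  · rintro u v ⟨u, hu, rfl⟩ ⟨v, hv, rfl⟩ huv
    exact (ins_sub h hr he hc u v).1 (h4 u v hu hv fun k => huv (congrArg e k))
  · intro w hw
    obtain ⟨u, rfl⟩ : ∃ u, e u = w := by
      by_cases h6 : w = e u0
      · exact ⟨u0, h6.symm⟩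
      · obtain ⟨z, hz1, hz2⟩ := exists_ne2 w (e u0)
        obtain ⟨-, n, hn⟩ := c_symm hs (hw (e u0) ⟨u0, h1, rfl⟩ h6 z hz1 hz2)
        exact stp_ran hr n _ _ (stp_mono (fun _ _ k => k.1) n _ _ hn)
    refine ⟨u, h5 u fun v hv huv => ?_, rfl⟩
    exact (ins_sub h hr he hc u v).2 (hw (e v) ⟨v, hv, rfl⟩ fun k => huv (he k))

end sub

/-- The class of the structures whose infinite blocks are in `V`. -/
theorem bks_sm {x : RS A} (hB : Bks V x) : Sm (FW PAb EQb V) x := by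
  refine sm_of fun u0 e he hz => ?_
  have hcc : ∀ u v, ∃ n, Stp (adj x) n (e u) (e v) := by
    intro u v
    obtain ⟨n, hn⟩ := (hz (e u)).2 ⟨u, rfl⟩
    obtain ⟨m, hm⟩ := (hz (e v)).2 ⟨v, rfl⟩
    exact ⟨n + m, stp_add n m _ _ _ (stp_symm adj_symm n _ _ hn) hm⟩
  have hr : ∀ u w, adj x (e u) w → ∃ n, e n = w := by
    intro u w h1
    obtain ⟨n, hn⟩ := (hz (e u)).2 ⟨u, rfl⟩
    exact (hz w).1 ⟨n + 1, stp_add n 1 _ _ _ hn ⟨w, h1, rfl⟩⟩
  have ha : ∀ u v, adj (fun i v => x i (e ∘ v) : RS A) u v ↔ adj x (e u) (e v) := by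
    intro u v
    constructor
    · rintro ⟨h1, i, t, h2, ⟨j, h3⟩, l, h4⟩
      exact ⟨fun k => h1 (he k), i, e ∘ t, h2, ⟨j, congrArg e h3⟩, l, congrArg e h4⟩
    · rintro ⟨h1, i, t, h2, ⟨j, h3⟩, l, h4⟩
      have h5 : ∀ k, ∃ n, e n = t k := by
        intro k
        by_cases h6 : t k = e u
        · exact ⟨u, h6.symm⟩
        · exact hr u _ ⟨fun k1 => h6 k1.symm, i, t, h2, ⟨j, h3⟩, k, rfl⟩
      choose t' ht' using h5
      have h7 : e ∘ t' = t := funext ht'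
      refine ⟨fun k => h1 (congrArg e k), i, t', ?_, ⟨j, ?_⟩, l, ?_⟩
      · show x i (e ∘ t') = true
        rw [h7]
        exact h2
      · exact he ((ht' j).trans h3)
      · exact he ((ht' l).trans h4)
  refine conn_fw (fun u => ?_) ?_
  · obtain ⟨n, hn⟩ := hcc u 0
    exact ⟨n, (stp_sub ha hr he n u 0).2 hn⟩
  · intro B hb f hf hfB
    refine hB _ (blk_sub ha hr he hcc adj_symm hb) (e ∘ f) (he.comp hf) fun w => ?_
    constructor
    · rintro ⟨n, hn⟩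
      exact ⟨f n, (hfB _).1 ⟨n, rfl⟩, hn⟩
    · rintro ⟨k, hk, hkw⟩
      obtain ⟨n, hn⟩ := (hfB k).2 hk
      exact ⟨n, (congrArg e hn).trans hkw⟩

/-- **The closure theorem for blocks.** -/
theorem vcu_blocks (hA : ∀ i, 0 < A i) (hV : Ok V) : VCu (Bks V) := by
  have h1 : Ok (Sm (FW (PAb (A := A)) EQb V)) := ok_sm hA (cnf_b.ok hA hV)
  intro B hB hi hBV
  exact h1.vc B hB hi fun x hx => bks_sm (hBV x hx)

end Pool.Agent.K7.H41.BL
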