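import Pool.Agent.K7.H41.BL.For
import Pool.Agent.K7.H41.NC.Dec
import Pool.Agent.W875.TS.ADDPT

set_option autoImplicit false

/-!
Structures along a forest: the code is a tree sum.
-/

namespace Pool.Agent.K7.H41.BL

open Pool.Agent.H533R2.VO (RS RIso)
open Pool.Agent.H533R2.VS
open Pool.Agent.TH425.FF
open Pool.Agent.W875.TS (p3 IsTree bE rd mx okp sh nz addpt decp V1 rd_mk rd_eq rd_decp rd_decp0 decp_0
  decp_1 decp_2 RS_ext addpt_decp okp_nz)

variable {A : ℕ → ℕ}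

/-- The relations between the children of a class. -/
def G (Pa Eq : ℕ → ℕ → Prop) (x : RS A) (i m : ℕ) (t : Fin (A i) → ℕ) : Prop :=
  ∃ (b : ℕ) (s : Fin (A i) → ℕ), (∀ j, Pa b (s j) ∧ K Pa (s j) (t j)) ∧
    (∀ j l, Eq (s j) (s l)) ∧ (∃ j l, s j ≠ s l) ∧ okp m (· = ·) s ∧ x i (mx m s b) = true

/-- The relations of the code. -/
def HR (Pa Eq : ℕ → ℕ → Prop) (x : RS A) (i : ℕ) : (c : ℕ) → (Fin (A i) → ℕ) → Prop
  | 0 => fun t => (∀ j l, t j = t l) ∧ x i t = true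
  | m + 1 => fun t => (∃ v b, (∀ j, t j = v) ∧ Pa b v ∧ x i (mx m (fun _ => v) b) = true) ∨
      G Pa Eq x i m t

/-- The code. -/
noncomputable def cod (Pa Eq : ℕ → ℕ → Prop) (x : RS A) : RS (bE A) :=
  Pool.Agent.W875.TS.mk (M Pa) (fun _ _ => False) (D Pa Eq) (HR Pa Eq x)

open Classical in
/-- Remove the constant tuples. -/
noncomputable def rmc {a : ℕ → ℕ} (z : RS a) : RS a := fun i v =>
  if ∃ j l, v j ≠ v l then z i v else false

open Classical in
/-- Restore the constant tuples. -/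
noncomputable def rst (_p : List ℕ) (z : RS (bE A)) : RS (bE A) :=
  Pool.Agent.W875.TS.mk (fun _ _ => False) (fun _ _ => False) (fun _ _ _ => False) fun i c t =>
    rd z i c t = true ∨ ((∀ j l, t j = t l) ∧ ∃ m, c = m + 1 ∧ (∃ j : Fin (A i), m.testBit j = true) ∧
      ∃ t' : Fin (A i) → ℕ, (∀ j : Fin (A i), m.testBit j = true → t' j = t j) ∧ (∃ j l, t' j ≠ t' l) ∧
        rd z i c t' = true)

/-- Remove the constant tuples, with a parameter. -/
noncomputable def rmp {a : ℕ → ℕ} (_p : List ℕ) (z : RS a) : RS a := rmc z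

/-- The structures at the nodes. -/
def VN (V : RS A → Prop) (z : RS (bE A)) : Prop := DecG z ∨ PExp rst rmp (V1 V) z

/-- The structure respects the forest. -/
def Fam (Pa Eq : ℕ → ℕ → Prop) (x : RS A) : Prop := ∀ i (t : Fin (A i) → ℕ), x i t = true →
  (∃ j l, t j ≠ t l) → ∃ b, (∀ j, t j = b ∨ Pa b (t j)) ∧ ∀ j l, t j ≠ b → t l ≠ b → Eq (t j) (t l)

/-- The structures on the infinite classes of siblings with their parents. -/
def Fib (Pa Eq : ℕ → ℕ → Prop) (V : RS A → Prop) (x : RS A) : Prop := ∀ b s0, Pa b s0 →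
  ∀ f : ℕ → ℕ, Function.Injective f → (∀ w, (∃ n, f n = w) ↔ w = b ∨ Eq s0 w) →
    V (rmc fun i v => x i (f ∘ v))

section facts

variable {Pa Eq : ℕ → ℕ → Prop} {x : RS A} {V : RS A → Prop}

theorem cod_0 (t : Fin 2 → ℕ) : cod Pa Eq x 0 t = true ↔ M Pa (t 0) (t 1) :=
  Pool.Agent.W875.TS.mk_0 _ _ _ _ t

theorem cod_1 (t : Fin 2 → ℕ) : cod Pa Eq x 1 t = false := by
  rw [← Bool.not_eq_true]
  exact fun h => (Pool.Agent.W875.TS.mk_1 _ _ _ _ t).1 h

theorem cod_2 (t : Fin 3 → ℕ) : cod Pa Eq x 2 t = true ↔ D Pa Eq (t 0) (t 1) (t 2) :=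
  Pool.Agent.W875.TS.mk_2 _ _ _ _ t

theorem rd_cod (i c : ℕ) (t : Fin (A i) → ℕ) : rd (cod Pa Eq x) i c t = true ↔ HR Pa Eq x i c t :=
  rd_mk _ _ _ _ _ _ _

theorem cod_n (n : ℕ) (t : Fin (A n.unpair.1) → ℕ) :
    cod Pa Eq x (n + 3) t = true ↔ HR Pa Eq x n.unpair.1 n.unpair.2 t := by
  rw [rd_eq (cod Pa Eq x) n t, rd_cod]

/-- The relations respect the cones: one direction. -/
theorem Fst.g_mod (h : Fst Pa Eq) {i m : ℕ} {t : Fin (A i) → ℕ} {k l : Fin (A i)} {c : ℕ}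
    (hd : D Pa Eq (t k) c (t l)) (hg : G Pa Eq x i m t) :
    G Pa Eq x i m (Function.update t k c) := by
  obtain ⟨b, s, h1, h2, h3⟩ := hg
  refine ⟨b, s, fun j => ⟨(h1 j).1, ?_⟩, h2, h3⟩
  by_cases hj : j = k
  · subst hj
    rw [Function.update_self]
    rw [d_iff] at hd
    rcases hd with ⟨rfl, -⟩ | ⟨S, k1, ⟨k2, k3⟩, k4⟩
    · exact (h1 j).2
    · rcases h.lemB k1 k2 (h1 j).2 (h1 j).1 with h5 | h5
      · exact h5 c k3
      · exact absurd (h5 (t l) ⟨s l, h2 j l, (h1 l).2⟩) k4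
  · rw [Function.update_of_ne hj]
    exact (h1 j).2

theorem Fst.d_ne (h : Fst Pa Eq) {u c w : ℕ} (hd : D Pa Eq u c w) : u ≠ w ∧ c ≠ w := by
  constructor
  · rintro rfl
    exact h.irrD hd
  · rintro rfl
    exact h.irrD (h.symD hd)

theorem upd_ne {n : ℕ} {t : Fin n → ℕ} {k l : Fin n} {c : ℕ} (h1 : t k ≠ t l) (h2 : c ≠ t l) :
    Function.update t k c k ≠ Function.update t k c l := by
  have hkl : l ≠ k := fun e => h1 (e ▸ rfl)
  rw [Function.update_self, Function.update_of_ne hkl]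
  exact h2

theorem Fst.hr_mod (h : Fst Pa Eq) {i c' : ℕ} {t : Fin (A i) → ℕ} {k l : Fin (A i)} {c : ℕ}
    (hd : D Pa Eq (t k) c (t l)) :
    HR Pa Eq x i c' (Function.update t k c) ↔ HR Pa Eq x i c' t := by
  obtain ⟨e1, e2⟩ := h.d_ne hd
  have e3 := upd_ne e1 e2
  cases c' with
  | zero => exact iff_of_false (fun h1 => e3 (h1.1 k l)) fun h1 => e1 (h1.1 k l)
  | succ m =>
    have hkl : l ≠ k := fun e => e1 (e ▸ rfl)
    refine or_congr (iff_of_false ?_ ?_) ⟨fun h1 => ?_, h.g_mod hd⟩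
    · rintro ⟨v, b, h1, -⟩
      exact e3 ((h1 k).trans (h1 l).symm)
    · rintro ⟨v, b, h1, -⟩
      exact e1 ((h1 k).trans (h1 l).symm)
    · have hd' : D Pa Eq (Function.update t k c k) (t k) (Function.update t k c l) := by
        rw [Function.update_self, Function.update_of_ne hkl]
        exact h.symD hd
      have h2 := h.g_mod hd' h1
      rw [Function.update_idem, Function.update_eq_self] at h2
      exact h2

theorem decG_of {z : RS (bE A)} {P : ℕ → Prop} (h0 : ∀ u v, z 0 (p2 u v) = true ↔ u ≠ v ∧ P u)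
    (hP : ∀ u v, P u → P v → u = v) (h1 : ∀ n, n ≠ 0 → ∀ t, z n t = false) : DecG z := by
  classical
  refine ⟨fun i hi t => h1 i (fun e => hi (by rw [e])) t, ?_⟩
  intro F hF
  have hne : F.Nonempty := by
    rw [← Finset.card_pos]
    rcases hF with h | h <;> omega
  obtain ⟨m, hm, hm'⟩ : ∃ m ∈ F, ∀ u ∈ F, P u → u = m := by
    by_cases h2 : ∃ u ∈ F, P u
    · obtain ⟨m, h3, h4⟩ := h2
      exact ⟨m, h3, fun u _ hu => hP u m hu h4⟩
    · push Not at h2
      obtain ⟨m, h3⟩ := hne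
      exact ⟨m, h3, fun u hu hu' => absurd hu' (h2 u hu)⟩
  refine ⟨F.erase m, Finset.erase_subset _ _, ?_, ?_, ?_⟩
  · rw [Finset.card_erase_of_mem hm]
    rcases hF with h | h <;> omega
  · rw [Finset.card_erase_of_mem hm]
    rcases hF with h | h <;> omega
  · intro u hu v hv w hw hwm
    have hwm' : w = m := by
      by_contra hc
      exact hwm (Finset.mem_erase.2 ⟨hc, hw⟩)
    subst hwm'
    obtain ⟨hu1, hu2⟩ := Finset.mem_erase.1 hu
    obtain ⟨hv1, hv2⟩ := Finset.mem_erase.1 hv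
    intro i
    by_cases hi : i = 0
    · subst hi
      have e1 : ∀ a b, (if bE A 0 = 2 then z 0 (p2 a b) else false) = z 0 (p2 a b) :=
        fun a b => if_pos rfl
      have k1 : z 0 (p2 u w) = z 0 (p2 v w) := by
        rw [Bool.eq_iff_iff, h0, h0]
        exact iff_of_false (fun h2 => hu1 (hm' u hu2 h2.2)) fun h2 => hv1 (hm' v hv2 h2.2)
      have k2 : z 0 (p2 w u) = z 0 (p2 w v) := by
        rw [Bool.eq_iff_iff, h0, h0]
        exact ⟨fun h2 => ⟨Ne.symm hv1, h2.2⟩, fun h2 => ⟨Ne.symm hu1, h2.2⟩⟩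
      exact ⟨(e1 _ _).trans (k1.trans (e1 _ _).symm), (e1 _ _).trans (k2.trans (e1 _ _).symm)⟩
    · have e1 : ∀ a b, (if bE A i = 2 then z i (p2 a b) else false) = false := fun a b => by
        split_ifs
        · exact h1 i hi _
        · rfl
      constructor
      · exact (e1 _ _).trans (e1 _ _).symm
      · exact (e1 _ _).trans (e1 _ _).symm

end facts

end Pool.Agent.K7.H41.BL
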