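import Pool.Agent.K7.H41.BL.Nod
import Pool.Agent.K7.H41.NC.Gen

set_option autoImplicit false

/-!
Structures along a forest: decoding, relabelling and measurability.
-/

namespace Pool.Agent.K7.H41.BL

open Pool.Agent.H533R2.VO (RS RIso)
open Pool.Agent.H533R2.VS
open Pool.Agent.TH425.FF
open Pool.Agent.K7.H41.NC (Stp xex xall r_stp b_stp tpn m_dec m_eq m_at Ok p2_act)
open Pool.Agent.W875.TS (p3 IsTree bE rd mx okp sh nz addpt decp V1 rd_mk rd_eq rd_decp rd_decp0 decp_0
  decp_1 decp_2 RS_ext addpt_decp okp_nz okp_comp rd_comp)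

variable {A : ℕ → ℕ}

section tree

variable {Pa Eq : ℕ → ℕ → Prop} {x : RS A} {V : RS A → Prop}

/-- The code is a tree sum. -/
theorem Fst.isTree (h : Fst Pa Eq) (hF : Fib Pa Eq V x) : IsTree 2 (VN V) (cod Pa Eq x) := by
  classical
  have hD : ∀ u v w, (cod Pa Eq x) 2 (p3 u v w) = true ↔ D Pa Eq u v w := fun u v w => cod_2 _
  have hD' : ∀ u v w, (cod Pa Eq x) 2 (p3 u v w) = false ↔ ¬ D Pa Eq u v w := fun u v w => by
    rw [← hD, Bool.not_eq_true]
  refine ⟨fun u w huw => (hD _ _ _).2 (Or.inl ⟨rfl, huw⟩), fun u v => (hD' _ _ _).2 h.irrD,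
    fun u v w h1 => (hD _ _ _).2 (h.symD ((hD _ _ _).1 h1)),
    fun u v w h1 => (hD' _ _ _).2 (h.c2 ((hD _ _ _).1 h1)),
    fun u v w h1 z => (h.c3 ((hD _ _ _).1 h1) z).imp (hD _ _ _).2 (hD _ _ _).2, ?_, ?_⟩
  · intro n hn t k l b hd
    rw [hD] at hd
    rw [Bool.eq_iff_iff]
    match n, hn, t, k, l, hd with
    | 0, _, t, k, l, hd =>
      rw [cod_0, cod_0]
      exact Pool.Agent.K7.H41.NC.mod2 (R := M Pa) (Q := D Pa Eq) (fun u v => h.irrD)
        (fun u b v hq => h.m1 hq) (fun u b v hq => h.m2 hq) t k l b hd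
    | 1, _, t, k, l, hd =>
      rw [cod_1, cod_1]
    | 2, hn, _, _, _, _ => exact absurd rfl hn
    | n + 3, _, t, k, l, hd =>
      rw [cod_n, cod_n]
      exact h.hr_mod hd
  · intro e he hs hc
    have h1 := h.node hF e he (fun l m n k1 k2 k3 => (hD' _ _ _).1 (hs l m n k1 k2 k3))
      (fun u hu => by
        obtain ⟨n, hn⟩ := hc u ((hD' _ _ _).2 hu)
        exact ⟨n, fun m hm => (hD _ _ _).1 (hn m hm)⟩)
    have h2 : nd Pa Eq x e = fun i v => if i ≠ 2 ∧ ∃ j l, v j ≠ v l then cod Pa Eq x i (e ∘ v)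
        else false := by
      funext i v
      rw [Bool.eq_iff_iff, nd_true]
      by_cases h3 : i ≠ 2 ∧ ∃ j l, v j ≠ v l
      · rw [if_pos h3]
        exact ⟨fun h4 => h4.2, fun h4 => ⟨h3, h4⟩⟩
      · rw [if_neg h3]
        exact ⟨fun h4 => absurd h4.1 h3, fun h4 => absurd h4 (by decide)⟩
    rw [h2] at h1
    exact h1

/-- The parent, recovered. -/
def Im (y : RS (bE A)) (b v : ℕ) : Prop := y 0 (p2 b v) = true ∧
  ∀ u, y 0 (p2 u v) = true → u = b ∨ y 0 (p2 u b) = true

/-- The relations, recovered. -/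
def DX (y : RS (bE A)) (i : ℕ) (t : Fin (A i) → ℕ) : Prop :=
  ((∀ j l, t j = t l) ∧ rd y i 0 t = true) ∨ ∃ b m,
    ((∀ j : Fin (A i), m.testBit j = false → t j = b) ∧
      (∀ j : Fin (A i), m.testBit j = true → Im y b (t j))) ∧ okp m (· = ·) t ∧
    ∃ l0 : Fin (A i), m.testBit l0 = true ∧ rd y i (m + 1) (mx m t (t l0)) = true

open Classical in
/-- Decoding. -/
noncomputable def dcx (_p : List ℕ) (y : RS (bE A)) : RS A := fun i t => decide (DX y i t)

theorem Fst.im_iff (h : Fst Pa Eq) (b v : ℕ) : Im (cod Pa Eq x) b v ↔ Pa b v := by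
  rw [← h.im]
  exact and_congr (cod_0 _) (forall_congr' fun u => imp_congr (cod_0 _)
    (or_congr Iff.rfl (cod_0 _)))

theorem Fst.dcx_cod (h : Fst Pa Eq) (hx : Fam Pa Eq x) (p : List ℕ) :
    dcx p (cod Pa Eq x) = x := by
  classical
  funext i t
  rw [Bool.eq_iff_iff]
  refine decide_eq_true_iff.trans ?_
  unfold DX
  simp only [h.im_iff, rd_cod]
  constructor
  · rintro (⟨-, -, h1⟩ | ⟨b, m, ⟨h1, h2⟩, h3, l0, h4, h5⟩)
    · exact h1
    · rcases h5 with ⟨v, c, h5, h6, h7⟩ | ⟨b', s, h5, h6, ⟨j1, l1, h7⟩, -, h8⟩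
      · have hv : ∀ j : Fin (A i), m.testBit j = true → t j = v := by
          intro j hj
          have h8 := h5 j
          unfold mx at h8
          rw [if_pos hj] at h8
          exact h8
        have hcb : c = b := by
          refine h.fn _ _ _ h6 ?_
          rw [← hv l0 h4]
          exact h2 l0 h4
        subst hcb
        have h8 : mx m (fun _ : Fin (A i) => v) c = t := by
          funext j
          unfold mx
          split_ifs with hj
          · exact (hv j hj).symm
          · exact (h1 j (by rw [← Bool.not_eq_true]; exact hj)).symm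
        rw [h8] at h7
        exact h7
      · -- all entries of the completed tuple are children of `b`
        have hc : ∀ j, Pa b (mx m t (t l0) j) := by
          intro j
          unfold mx
          split_ifs with hj
          · exact h2 j hj
          · exact h2 l0 h4
        have hor : ∀ j, s j = mx m t (t l0) j ∨ K Pa (s j) b := by
          intro j
          rcases k_iff.1 (h5 j).2 with h9 | h9
          · exact Or.inl h9
          · exact Or.inr (h.par h9 (hc j))
        have hb : b' = b := by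
          by_cases h9 : ∃ j, s j = mx m t (t l0) j
          · obtain ⟨j, hj⟩ := h9
            exact h.fn _ _ _ (h5 j).1 (hj ▸ hc j)
          · push Not at h9
            have h10 : ∀ j, K Pa (s j) b := fun j => (hor j).resolve_left (h9 j)
            exact absurd (h.top_uniq (h5 j1).1 (h5 l1).1 (h10 j1) (h10 l1)) h7
        subst hb
        have hs : ∀ j, s j = mx m t (t l0) j := by
          intro j
          rcases hor j with h9 | h9
          · exact h9
          · exact absurd (m_km (pa_m (h5 j).1) h9) (h.ac b')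
        have h9 : mx m s b' = t := by
          funext j
          show (if m.testBit j = true then s j else b') = t j
          split_ifs with hj
          · rw [hs j]
            unfold mx
            rw [if_pos hj]
          · exact (h1 j (by rw [← Bool.not_eq_true]; exact hj)).symm
        rw [h9] at h8
        exact h8
  · intro h1
    by_cases ht : ∃ j l, t j ≠ t l
    · right
      obtain ⟨b, h2, h3⟩ := hx i t h1 ht
      obtain ⟨m, hm⟩ : ∃ m : ℕ, ∀ j : Fin (A i), m.testBit j = true ↔ t j ≠ b := by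
        refine ⟨Nat.ofBits fun j : Fin (A i) => decide (t j ≠ b), fun j => ?_⟩
        rw [Nat.testBit_ofBits_lt _ _ j.2]
        simp
      have hm' : ∀ j : Fin (A i), m.testBit j = false ↔ t j = b := fun j => by
        rw [← Bool.not_eq_true, hm, not_not]
      have hp : ∀ j : Fin (A i), m.testBit j = true → Pa b (t j) := fun j hj =>
        (h2 j).resolve_left ((hm j).1 hj)
      have hok : okp m (· = ·) t := by
        by_cases h4 : ∃ l : Fin (A i), t l = b
        · obtain ⟨l, hl⟩ := h4
          obtain ⟨j, l', h5⟩ := ht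
          by_cases h6 : t j = b
          · exact Or.inl ⟨l', l, (hm l').2 (fun h7 => h5 (h6.trans h7.symm)), (hm' l).2 hl⟩
          · exact Or.inl ⟨j, l, (hm j).2 h6, (hm' l).2 hl⟩
        · push Not at h4
          obtain ⟨j, l, h5⟩ := ht
          exact Or.inr ⟨j, l, (hm j).2 (h4 j), (hm l).2 (h4 l), h5⟩
      obtain ⟨l0, hl0⟩ : ∃ l0 : Fin (A i), m.testBit l0 = true := by
        rcases hok with ⟨j, l, h4, -⟩ | ⟨j, l, h4, -⟩
        · exact ⟨j, h4⟩
        · exact ⟨j, h4⟩
      refine ⟨b, m, ⟨fun j hj => (hm' j).1 hj, hp⟩, hok, l0, hl0, ?_⟩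
      by_cases h4 : ∃ j l : Fin (A i), m.testBit j = true ∧ m.testBit l = true ∧ t j ≠ t l
      · right
        have hc : ∀ j, ∃ j' : Fin (A i), m.testBit j' = true ∧ mx m t (t l0) j = t j' := by
          intro j
          unfold mx
          split_ifs with hj
          · exact ⟨j, hj, rfl⟩
          · exact ⟨l0, hl0, rfl⟩
        have hin : ∀ j : Fin (A i), m.testBit j = true → mx m t (t l0) j = t j := by
          intro j hj
          unfold mx
          rw [if_pos hj]
        obtain ⟨j1, l1, h5, h6, h7⟩ := h4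
        refine ⟨b, mx m t (t l0), fun j => ⟨?_, k_refl _⟩, fun j l => ?_, ⟨j1, l1, ?_⟩,
          Or.inr ⟨j1, l1, h5, h6, ?_⟩, ?_⟩
        · obtain ⟨j', h8, h9⟩ := hc j
          rw [h9]
          exact hp j' h8
        · obtain ⟨j', h8, h9⟩ := hc j
          obtain ⟨l', h10, h11⟩ := hc l
          rw [h9, h11]
          exact h3 _ _ ((hm j').1 h8) ((hm l').1 h10)
        · rw [hin j1 h5, hin l1 h6]
          exact h7
        · show ¬ mx m t (t l0) j1 = mx m t (t l0) l1
          rw [hin j1 h5, hin l1 h6]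
          exact h7
        · have h8 : mx m (mx m t (t l0)) b = t := by
            funext j
            show (if m.testBit j = true then mx m t (t l0) j else b) = t j
            split_ifs with hj
            · exact hin j hj
            · exact ((hm' j).1 (by rw [← Bool.not_eq_true]; exact hj)).symm
          rw [h8]
          exact h1
      · left
        push Not at h4
        refine ⟨t l0, b, fun j => ?_, hp l0 hl0, ?_⟩
        · unfold mx
          split_ifs with hj
          · exact h4 j l0 hj hl0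
          · rfl
        · have h8 : mx m (fun _ : Fin (A i) => t l0) b = t := by
            funext j
            unfold mx
            split_ifs with hj
            · exact (h4 j l0 hj hl0).symm
            · exact ((hm' j).1 (by rw [← Bool.not_eq_true]; exact hj)).symm
          rw [h8]
          exact h1
    · left
      push Not at ht
      exact ⟨ht, ht, h1⟩

end tree

/-! ### Relabelling -/

section canon

variable {Pa Eq Pa' Eq' : ℕ → ℕ → Prop} (σ : Equiv.Perm ℕ) {x : RS A}

theorem r_K (hp : ∀ b v, Pa' (σ b) (σ v) ↔ Pa b v) (b w : ℕ) : K Pa' (σ b) (σ w) ↔ K Pa b w :=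
  exists_congr fun n => r_stp σ (N := Up Pa) (N' := Up Pa') (fun u v => hp v u) n w b

theorem r_M (hp : ∀ b v, Pa' (σ b) (σ v) ↔ Pa b v) (b w : ℕ) : M Pa' (σ b) (σ w) ↔ M Pa b w :=
  xex σ fun c => and_congr (hp c w) (r_K σ hp b c)

theorem r_Q (hp : ∀ b v, Pa' (σ b) (σ v) ↔ Pa b v) (he : ∀ b v, Eq' (σ b) (σ v) ↔ Eq b v)
    (s w : ℕ) : Q Pa' Eq' (σ s) (σ w) ↔ Q Pa Eq s w :=
  xex σ fun s' => and_congr (he s s') (r_K σ hp s' w)

theorem r_Cm (hp : ∀ b v, Pa' (σ b) (σ v) ↔ Pa b v) (u w : ℕ) :
    Cm Pa' (σ u) (σ w) ↔ Cm Pa u w :=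
  xex σ fun b => and_congr (r_K σ hp b u) (r_K σ hp b w)

theorem r_D (hp : ∀ b v, Pa' (σ b) (σ v) ↔ Pa b v) (he : ∀ b v, Eq' (σ b) (σ v) ↔ Eq b v)
    (u v w : ℕ) : D Pa' Eq' (σ u) (σ v) (σ w) ↔ D Pa Eq u v w :=
  or_congr (and_congr σ.injective.eq_iff (not_congr σ.injective.eq_iff)) (or_congr
    (xex σ fun b => and_congr (and_congr (r_K σ hp b u) (r_K σ hp b v)) (not_congr (r_K σ hp b w)))
    (or_congr (xex σ fun s => and_congr (and_congr (r_Q σ hp he s u) (r_Q σ hp he s v))
      (not_congr (r_Q σ hp he s w))) (xex σ fun z => and_congr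
        (and_congr (r_Cm σ hp z u) (r_Cm σ hp z v)) (not_congr (r_Cm σ hp z w)))))

theorem mx_comp {k : ℕ} (m : ℕ) (s : Fin k → ℕ) (b : ℕ) :
    mx m (σ ∘ s) (σ b) = σ ∘ mx m s b := by
  funext j
  show (if m.testBit j = true then σ (s j) else σ b) = σ (if m.testBit j = true then s j else b)
  split_ifs <;> rfl

theorem x_act (i : ℕ) (t : Fin (A i) → ℕ) : act σ x i (σ ∘ t) = x i t :=
  Pool.Agent.K7.H41.NC.s_x σ x i t

theorem r_G (hp : ∀ b v, Pa' (σ b) (σ v) ↔ Pa b v) (he : ∀ b v, Eq' (σ b) (σ v) ↔ Eq b v)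
    (i m : ℕ) (t : Fin (A i) → ℕ) : G Pa' Eq' (act σ x) i m (σ ∘ t) ↔ G Pa Eq x i m t := by
  refine xex σ fun b => xex (tpn σ _) fun s => and_congr (forall_congr' fun j =>
    and_congr (hp b (s j)) (r_K σ hp (s j) (t j))) (and_congr (forall_congr' fun j =>
      forall_congr' fun l => he (s j) (s l)) (and_congr (exists_congr fun j =>
        exists_congr fun l => not_congr σ.injective.eq_iff)
        (and_congr (okp_comp m σ σ.injective s) ?_)))
  rw [show mx m (tpn σ _ s) (σ b) = σ ∘ mx m s b from mx_comp σ m s b, x_act]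

theorem r_HR (hp : ∀ b v, Pa' (σ b) (σ v) ↔ Pa b v) (he : ∀ b v, Eq' (σ b) (σ v) ↔ Eq b v)
    (i c : ℕ) (t : Fin (A i) → ℕ) : HR Pa' Eq' (act σ x) i c (σ ∘ t) ↔ HR Pa Eq x i c t := by
  cases c with
  | zero =>
    refine and_congr (forall_congr' fun j => forall_congr' fun l => σ.injective.eq_iff) ?_
    rw [x_act]
  | succ m =>
    refine or_congr (xex σ fun v => xex σ fun b => and_congr (forall_congr' fun j =>
      σ.injective.eq_iff) (and_congr (hp b v) ?_)) (r_G σ hp he i m t)
    have h1 : mx m (fun _ : Fin (A i) => σ v) (σ b) = σ ∘ mx m (fun _ => v) b :=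
      mx_comp σ m (fun _ => v) b
    rw [h1, x_act]

theorem r_cod (hp : ∀ b v, Pa' (σ b) (σ v) ↔ Pa b v) (he : ∀ b v, Eq' (σ b) (σ v) ↔ Eq b v) :
    cod Pa' Eq' (act σ x) = act σ (cod Pa Eq x) := by
  have e2 : ∀ {k : ℕ} (t : Fin k → ℕ), t = σ ∘ (σ.symm ∘ t) := fun t => by
    funext j
    exact (σ.apply_symm_apply _).symm
  refine RS_ext ?_ ?_ ?_ ?_
  · intro u v
    obtain ⟨u, rfl⟩ := σ.surjective u
    obtain ⟨v, rfl⟩ := σ.surjective v
    rw [Bool.eq_iff_iff, cod_0]
    refine (r_M σ hp u v).trans ?_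
    have h1 : (σ.symm ∘ ![σ u, σ v] : Fin 2 → ℕ) = ![u, v] := by
      funext j
      fin_cases j
      · exact σ.symm_apply_apply _
      · exact σ.symm_apply_apply _
    show _ ↔ cod Pa Eq x 0 (σ.symm ∘ ![σ u, σ v]) = true
    rw [h1, cod_0]
    exact Iff.rfl
  · intro u v
    rw [cod_1]
    exact (cod_1 _).symm
  · intro u v w
    obtain ⟨u, rfl⟩ := σ.surjective u
    obtain ⟨v, rfl⟩ := σ.surjective v
    obtain ⟨w, rfl⟩ := σ.surjective w
    rw [Bool.eq_iff_iff, cod_2]
    refine (r_D σ hp he u v w).trans ?_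
    have h1 : (σ.symm ∘ ![σ u, σ v, σ w] : Fin 3 → ℕ) = ![u, v, w] := by
      funext j
      fin_cases j
      · exact σ.symm_apply_apply _
      · exact σ.symm_apply_apply _
      · exact σ.symm_apply_apply _
    show _ ↔ cod Pa Eq x 2 (σ.symm ∘ ![σ u, σ v, σ w]) = true
    rw [h1, cod_2]
    exact Iff.rfl
  · intro i c t
    rw [Bool.eq_iff_iff, rd_cod]
    show _ ↔ rd (cod Pa Eq x) i c (σ.symm ∘ t) = true
    rw [rd_cod]
    conv_lhs => rw [e2 t]
    exact r_HR σ hp he i c _

theorem y_act (y : RS (bE A)) (u v : ℕ) :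
    act σ y 0 (p2 (σ u) (σ v)) = true ↔ y 0 (p2 u v) = true := by
  show y 0 (σ.symm ∘ _) = true ↔ _
  rw [p2_act]

theorem rd_act (y : RS (bE A)) (i c : ℕ) (t : Fin (A i) → ℕ) :
    rd (act σ y) i c (σ ∘ t) = rd y i c t := by
  show rd y i c (σ.symm ∘ (σ ∘ t)) = rd y i c t
  congr 1
  funext j
  exact σ.symm_apply_apply _

theorem r_Im (y : RS (bE A)) (b v : ℕ) : Im (act σ y) (σ b) (σ v) ↔ Im y b v :=
  and_congr (y_act σ y b v) (xall σ fun u => imp_congr (y_act σ y u v)
    (or_congr σ.injective.eq_iff (y_act σ y u b)))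

theorem r_DX (y : RS (bE A)) (i : ℕ) (t : Fin (A i) → ℕ) :
    DX (act σ y) i (σ ∘ t) ↔ DX y i t := by
  refine or_congr (and_congr (forall_congr' fun j => forall_congr' fun l =>
    σ.injective.eq_iff) ?_) (xex σ fun b => exists_congr fun m => and_congr (and_congr
      (forall_congr' fun j => imp_congr Iff.rfl σ.injective.eq_iff)
      (forall_congr' fun j => imp_congr Iff.rfl (r_Im σ y b (t j))))
      (and_congr (okp_comp m σ σ.injective t) (exists_congr fun l0 =>
        and_congr Iff.rfl ?_)))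
  · rw [rd_act]
  · rw [show mx m (σ ∘ t) ((σ ∘ t) l0) = σ ∘ mx m t (t l0) from mx_comp σ m t (t l0), rd_act]

end canon

/-! ### Measurability -/

section meas

variable {X : Type} [MeasurableSpace X] {PA EQ : X → ℕ → ℕ → Prop} {f : X → RS A}

theorem b_K (hp : ∀ b v, Measurable fun x => PA x b v) (b w : ℕ) :
    Measurable fun x => K (PA x) b w :=
  Measurable.exists fun n => b_stp (N := fun x => Up (PA x)) (fun u v => hp v u) n w b

theorem b_M (hp : ∀ b v, Measurable fun x => PA x b v) (b w : ℕ) :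
    Measurable fun x => M (PA x) b w :=
  Measurable.exists fun c => (hp c w).and (b_K hp b c)

theorem b_Q (hp : ∀ b v, Measurable fun x => PA x b v) (he : ∀ b v, Measurable fun x => EQ x b v)
    (s w : ℕ) : Measurable fun x => Q (PA x) (EQ x) s w :=
  Measurable.exists fun s' => (he s s').and (b_K hp s' w)

theorem b_Cm (hp : ∀ b v, Measurable fun x => PA x b v) (u w : ℕ) :
    Measurable fun x => Cm (PA x) u w :=
  Measurable.exists fun b => (b_K hp b u).and (b_K hp b w)

theorem b_D (hp : ∀ b v, Measurable fun x => PA x b v) (he : ∀ b v, Measurable fun x => EQ x b v)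
    (u v w : ℕ) : Measurable fun x => D (PA x) (EQ x) u v w :=
  measurable_const.or ((Measurable.exists fun b => ((b_K hp b u).and (b_K hp b v)).and
    (b_K hp b w).not).or ((Measurable.exists fun s => ((b_Q hp he s u).and (b_Q hp he s v)).and
      (b_Q hp he s w).not).or (Measurable.exists fun z => ((b_Cm hp z u).and (b_Cm hp z v)).and
        (b_Cm hp z w).not)))

theorem b_at (hf : Measurable f) (i : ℕ) (t : Fin (A i) → ℕ) :
    Measurable fun x => f x i t = true :=
  m_eq ((m_at i t).comp hf)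

theorem b_HR (hp : ∀ b v, Measurable fun x => PA x b v) (he : ∀ b v, Measurable fun x => EQ x b v)
    (hf : Measurable f) (i c : ℕ) (t : Fin (A i) → ℕ) :
    Measurable fun x => HR (PA x) (EQ x) (f x) i c t := by
  cases c with
  | zero => exact measurable_const.and (b_at hf i t)
  | succ m =>
    exact (Measurable.exists fun v => Measurable.exists fun b => measurable_const.and
      ((hp b v).and (b_at hf i _))).or (Measurable.exists fun b => Measurable.exists fun s =>
        (Measurable.forall fun j => (hp b (s j)).and (b_K hp (s j) (t j))).and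
          ((Measurable.forall fun j => Measurable.forall fun l => he (s j) (s l)).and
            (measurable_const.and (measurable_const.and (b_at hf i _)))))

theorem b_mk {B E : X → ℕ → ℕ → Prop} {T : X → ℕ → ℕ → ℕ → Prop}
    {R : X → (i c : ℕ) → (Fin (A i) → ℕ) → Prop} (h0 : ∀ u v, Measurable fun x => B x u v)
    (h1 : ∀ u v, Measurable fun x => E x u v) (h2 : ∀ u v w, Measurable fun x => T x u v w)
    (h3 : ∀ i c t, Measurable fun x => R x i c t) :
    Measurable fun x => (Pool.Agent.W875.TS.mk (B x) (E x) (T x) (R x) : RS (bE A)) := by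
  classical
  refine measurable_pi_iff.2 fun n => measurable_pi_iff.2 fun t => ?_
  have key : ∀ (g : X → Bool) (P : X → Prop), (∀ x, g x = true ↔ P x) → Measurable P →
      Measurable g := by
    intro g P h4 h5
    have h6 : g = fun x => decide (P x) := by
      funext x
      rw [Bool.eq_iff_iff, h4, decide_eq_true_iff]
    rw [h6]
    exact m_dec h5
  match n, t with
  | 0, t => exact key _ _ (fun x => Pool.Agent.W875.TS.mk_0 _ _ _ _ t) (h0 _ _)
  | 1, t => exact key _ _ (fun x => Pool.Agent.W875.TS.mk_1 _ _ _ _ t) (h1 _ _)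
  | 2, t => exact key _ _ (fun x => Pool.Agent.W875.TS.mk_2 _ _ _ _ t) (h2 _ _ _)
  | n + 3, t =>
    refine key _ _ (fun x => ?_) (h3 n.unpair.1 n.unpair.2 t)
    exact (iff_of_eq (congrArg (· = true) (rd_eq (Pool.Agent.W875.TS.mk (B x) (E x) (T x) (R x))
      n t))).trans (rd_mk _ _ _ _ _ _ _)

theorem b_cod (hp : ∀ b v, Measurable fun x => PA x b v)
    (he : ∀ b v, Measurable fun x => EQ x b v) (hf : Measurable f) :
    Measurable fun x => cod (PA x) (EQ x) (f x) :=
  b_mk (b_M hp) (fun _ _ => measurable_const) (b_D hp he) (b_HR hp he hf)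

theorem b_Im (b v : ℕ) : Measurable fun y : RS (bE A) => Im y b v :=
  (m_eq (m_at 0 _)).and (Measurable.forall fun _ => (m_eq (m_at 0 _)).imp
    (measurable_const.or (m_eq (m_at 0 _))))

theorem b_rd (i c : ℕ) (t : Fin (A i) → ℕ) : Measurable fun y : RS (bE A) => rd y i c t = true :=
  m_eq (m_at (a := bE A) _ _)

theorem b_DX (i : ℕ) (t : Fin (A i) → ℕ) : Measurable fun y : RS (bE A) => DX y i t :=
  (measurable_const.and (b_rd i 0 t)).or (Measurable.exists fun b => Measurable.exists fun _ =>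
    (measurable_const.and (Measurable.forall fun j => measurable_const.imp (b_Im b (t j)))).and
      (measurable_const.and (Measurable.exists fun _ => measurable_const.and (b_rd i _ _))))

end meas

/-- Forests given by equivariant Borel maps. -/
structure Cnf (PA EQ : List ℕ → RS A → ℕ → ℕ → Prop) : Prop where
  mp : ∀ p b v, Measurable fun x => PA p x b v
  me : ∀ p b v, Measurable fun x => EQ p x b v
  cp : ∀ (σ : Equiv.Perm ℕ) p x b v, PA (p.map σ) (act σ x) (σ b) (σ v) ↔ PA p x b v
  ce : ∀ (σ : Equiv.Perm ℕ) p x b v, EQ (p.map σ) (act σ x) (σ b) (σ v) ↔ EQ p x b v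

open Classical in
theorem Cnf.pcn {PA EQ : List ℕ → RS A → ℕ → ℕ → Prop} (h : Cnf PA EQ) :
    PCanon (fun p x => cod (PA p x) (EQ p x) x) (dcx (A := A)) where
  meas p := b_cod (h.mp p) (h.me p) measurable_id
  dmeas p := measurable_pi_iff.2 fun i => measurable_pi_iff.2 fun t => m_dec (b_DX i t)
  cact σ p x := r_cod σ (h.cp σ p x) (h.ce σ p x)
  dact σ p y := by
    funext i t
    have h1 : t = σ ∘ (σ.symm ∘ t) := by
      funext j
      exact (σ.apply_symm_apply _).symm
    show decide (DX (act σ y) i t) = decide (DX y i (σ.symm ∘ t))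
    refine decide_eq_decide.2 ?_
    conv_lhs => rw [h1]
    exact r_DX σ y i _

end Pool.Agent.K7.H41.BL
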