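import Pool.Agent.K7.H41.NC.Crs

set_option autoImplicit false

/-!
Forests with classes of siblings, and their cones.
-/

namespace Pool.Agent.K7.H41.BL

open Pool.Agent.K7.H41.NC (Stp)

/-- One step upwards. -/
def Up (Pa : ℕ → ℕ → Prop) (v b : ℕ) : Prop := Pa b v

/-- `w` is in the cone of `b`. -/
def K (Pa : ℕ → ℕ → Prop) (b w : ℕ) : Prop := ∃ n, Stp (Up Pa) n w b

/-- `w` is strictly below `b`. -/
def M (Pa : ℕ → ℕ → Prop) (b w : ℕ) : Prop := ∃ c, Pa c w ∧ K Pa b c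

/-- `w` is in the cone of the class of `s`. -/
def Q (Pa Eq : ℕ → ℕ → Prop) (s w : ℕ) : Prop := ∃ s', Eq s s' ∧ K Pa s' w

/-- One component. -/
def Cm (Pa : ℕ → ℕ → Prop) (u w : ℕ) : Prop := ∃ b, K Pa b u ∧ K Pa b w

/-- A forest with classes of siblings. -/
structure Fst (Pa Eq : ℕ → ℕ → Prop) : Prop where
  fn : ∀ b b' v, Pa b v → Pa b' v → b = b'
  ac : ∀ b, ¬ M Pa b b
  es : ∀ v w, Eq v w → Eq w v
  et : ∀ u v w, Eq u v → Eq v w → Eq u w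
  ep : ∀ v w, Eq v w → ∃ b, Pa b v ∧ Pa b w
  er : ∀ b v, Pa b v → Eq v v

/-- Cones. -/
def Cone (Pa Eq : ℕ → ℕ → Prop) (S : ℕ → Prop) : Prop :=
  (∃ b, S = K Pa b) ∨ (∃ s, S = Q Pa Eq s) ∨ ∃ u, S = Cm Pa u

/-- The relation of the cones. -/
def D (Pa Eq : ℕ → ℕ → Prop) (u v w : ℕ) : Prop :=
  (u = v ∧ u ≠ w) ∨ (∃ b, (K Pa b u ∧ K Pa b v) ∧ ¬ K Pa b w) ∨
    (∃ s, (Q Pa Eq s u ∧ Q Pa Eq s v) ∧ ¬ Q Pa Eq s w) ∨
    ∃ z, (Cm Pa z u ∧ Cm Pa z v) ∧ ¬ Cm Pa z w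

section facts

variable {Pa Eq : ℕ → ℕ → Prop} {S S' : ℕ → Prop} {b b' c s s' u v w z : ℕ}

theorem d_iff : D Pa Eq u v w ↔ (u = v ∧ u ≠ w) ∨ ∃ S, Cone Pa Eq S ∧ (S u ∧ S v) ∧ ¬ S w := by
  constructor
  · rintro (h | ⟨b, h⟩ | ⟨s, h⟩ | ⟨z, h⟩)
    · exact Or.inl h
    · exact Or.inr ⟨_, Or.inl ⟨b, rfl⟩, h⟩
    · exact Or.inr ⟨_, Or.inr (Or.inl ⟨s, rfl⟩), h⟩
    · exact Or.inr ⟨_, Or.inr (Or.inr ⟨z, rfl⟩), h⟩
  · rintro (h | ⟨S, ⟨b, rfl⟩ | ⟨s, rfl⟩ | ⟨z, rfl⟩, h⟩)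
    · exact Or.inl h
    · exact Or.inr (Or.inl ⟨b, h⟩)
    · exact Or.inr (Or.inr (Or.inl ⟨s, h⟩))
    · exact Or.inr (Or.inr (Or.inr ⟨z, h⟩))

theorem d_of (hS : Cone Pa Eq S) (hu : S u) (hv : S v) (hw : ¬ S w) : D Pa Eq u v w :=
  d_iff.2 (Or.inr ⟨S, hS, ⟨hu, hv⟩, hw⟩)

theorem stp_add {N : ℕ → ℕ → Prop} (n : ℕ) : ∀ m u v w, Stp N n u v → Stp N m v w →
    Stp N (n + m) u w := by
  induction n with
  | zero =>
    intro m u v w h1 h2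
    obtain rfl : v = u := h1
    rw [Nat.zero_add]
    exact h2
  | succ n ih =>
    rintro m u v w ⟨u', h1, h2⟩ h3
    rw [Nat.add_right_comm]
    exact ⟨u', h1, ih m u' v w h2 h3⟩

theorem k_refl (b : ℕ) : K Pa b b := ⟨0, rfl⟩

theorem k_trans (h1 : K Pa b c) (h2 : K Pa c w) : K Pa b w := by
  obtain ⟨n, hn⟩ := h1
  obtain ⟨m, hm⟩ := h2
  exact ⟨m + n, stp_add m n _ _ _ hm hn⟩

theorem pa_k (h : Pa b v) : K Pa b v := ⟨1, b, h, rfl⟩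

theorem k_iff : K Pa b w ↔ b = w ∨ M Pa b w := by
  constructor
  · rintro ⟨n, hn⟩
    cases n with
    | zero => exact Or.inl hn
    | succ n =>
      obtain ⟨c, h1, h2⟩ := hn
      exact Or.inr ⟨c, h1, n, h2⟩
  · rintro (rfl | ⟨c, h1, h2⟩)
    · exact k_refl _
    · exact k_trans h2 (pa_k h1)

theorem M.k (h : M Pa b w) : K Pa b w := k_iff.2 (Or.inr h)

theorem m_top : M Pa b w ↔ ∃ s, Pa b s ∧ K Pa s w := by
  constructor
  · rintro ⟨c, h1, n, hn⟩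
    have key : ∀ n c w, Pa c w → Stp (Up Pa) n c b → ∃ s, Pa b s ∧ K Pa s w := by
      intro n
      induction n with
      | zero =>
        intro c w h1 h2
        obtain rfl : b = c := h2
        exact ⟨w, h1, k_refl w⟩
      | succ n ih =>
        rintro c w h1 ⟨c', h2, h3⟩
        obtain ⟨s, h4, h5⟩ := ih c' c h2 h3
        exact ⟨s, h4, k_trans h5 (pa_k h1)⟩
    exact key n c w h1 hn
  · rintro ⟨s, h1, h2⟩
    rcases k_iff.1 h2 with rfl | ⟨c, h3, h4⟩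
    · exact ⟨b, h1, k_refl b⟩
    · exact ⟨c, h3, k_trans (pa_k h1) h4⟩

theorem pa_m (h : Pa b v) : M Pa b v := ⟨b, h, k_refl b⟩

theorem m_km (h1 : M Pa b c) (h2 : K Pa c w) : M Pa b w := by
  rw [m_top] at h1 ⊢
  obtain ⟨s, h3, h4⟩ := h1
  exact ⟨s, h3, k_trans h4 h2⟩

theorem k_mm (h1 : K Pa b c) (h2 : M Pa c w) : M Pa b w := by
  obtain ⟨d, h3, h4⟩ := h2
  exact ⟨d, h3, k_trans h1 h4⟩

namespace Fst

theorem anti (h : Fst Pa Eq) (h1 : K Pa b c) (h2 : K Pa c b) : b = c := by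
  rcases k_iff.1 h1 with h3 | h3
  · exact h3
  · exact absurd (m_km h3 h2) (h.ac b)

/-- The number of steps determines the point. -/
theorem sub (h : Fst Pa Eq) (n : ℕ) : ∀ m u b b', Stp (Up Pa) n u b → Stp (Up Pa) m u b' →
    n ≤ m → K Pa b' b := by
  induction n with
  | zero =>
    intro m u b b' h1 h2 _
    obtain rfl : b = u := h1
    exact ⟨m, h2⟩
  | succ n ih =>
    rintro m u b b' ⟨c, h1, h2⟩ h3 h4
    cases m with
    | zero => exact absurd h4 (by omega)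
    | succ m =>
      obtain ⟨c', h5, h6⟩ := h3
      have hc : c = c' := h.fn _ _ _ h1 h5
      subst hc
      exact ih m c b b' h2 h6 (by omega)

theorem lin (h : Fst Pa Eq) (h1 : K Pa b w) (h2 : K Pa b' w) : K Pa b b' ∨ K Pa b' b := by
  obtain ⟨n, hn⟩ := h1
  obtain ⟨m, hm⟩ := h2
  rcases le_total n m with h3 | h3
  · exact Or.inr (h.sub n m w b b' hn hm h3)
  · exact Or.inl (h.sub m n w b' b hm hn h3)

/-- The parent of a point strictly below `b`. -/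
theorem par (h : Fst Pa Eq) (h1 : M Pa b w) (h2 : Pa c w) : K Pa b c := by
  obtain ⟨d, h3, h4⟩ := h1
  rw [h.fn _ _ _ h2 h3]
  exact h4

/-- Children of one point have disjoint cones. -/
theorem top_uniq (h : Fst Pa Eq) (h1 : Pa b s) (h2 : Pa b s') (h3 : K Pa s w) (h4 : K Pa s' w) :
    s = s' := by
  have key : ∀ s s', Pa b s → Pa b s' → K Pa s s' → s = s' := by
    intro s s' h1 h2 h5
    rcases k_iff.1 h5 with h6 | h6
    · exact h6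
    · exact absurd (m_km (pa_m h1) (h.par h6 h2)) (h.ac b)
  rcases h.lin h3 h4 with h5 | h5
  · exact key s s' h1 h2 h5
  · exact (key s' s h2 h1 h5).symm

theorem q_sub (h : Fst Pa Eq) (h1 : Pa b s) (h2 : Q Pa Eq s z) : K Pa b z := by
  obtain ⟨s', h3, h4⟩ := h2
  obtain ⟨c, h5, h6⟩ := h.ep _ _ h3
  rw [h.fn _ _ _ h1 h5]
  exact k_trans (pa_k h6) h4

theorem q_eq (h : Fst Pa Eq) (h1 : Eq s s') (h2 : Q Pa Eq s z) : Q Pa Eq s' z := by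
  obtain ⟨s'', h3, h4⟩ := h2
  exact ⟨s'', h.et _ _ _ (h.es _ _ h1) h3, h4⟩

theorem cm_k (h : Fst Pa Eq) (h1 : Cm Pa u w) (h2 : K Pa b w) (h3 : K Pa b z) : Cm Pa u z := by
  obtain ⟨c, h4, h5⟩ := h1
  rcases h.lin h5 h2 with h6 | h6
  · exact ⟨c, h4, k_trans h6 h3⟩
  · exact ⟨b, k_trans h6 h4, h3⟩

theorem cm_trans (h : Fst Pa Eq) (h1 : Cm Pa u v) (h2 : Cm Pa v w) : Cm Pa u w := by
  obtain ⟨c, h4, h5⟩ := h2
  exact h.cm_k h1 h4 h5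

theorem cm_symm (_h : Fst Pa Eq) (h1 : Cm Pa u v) : Cm Pa v u := by
  obtain ⟨c, h4, h5⟩ := h1
  exact ⟨c, h5, h4⟩

/-- Cones are closed downwards. -/
theorem down (h : Fst Pa Eq) (hS : Cone Pa Eq S) (hu : S u) (hz : K Pa u z) : S z := by
  rcases hS with ⟨b, rfl⟩ | ⟨s, rfl⟩ | ⟨w, rfl⟩
  · exact k_trans hu hz
  · obtain ⟨s', h1, h2⟩ := hu
    exact ⟨s', h1, k_trans h2 hz⟩
  · exact h.cm_k hu (k_refl u) hz

/-- A cone meeting the cone of `s` is contained in it or contains the cone of the class of `s`. -/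
theorem lemB (h : Fst Pa Eq) (hS : Cone Pa Eq S) (hu : S u) (hs : K Pa s u) (hb : Pa b s) :
    (∀ z, S z → K Pa s z) ∨ ∀ z, Q Pa Eq s z → S z := by
  rcases hS with ⟨b', rfl⟩ | ⟨s', rfl⟩ | ⟨w, rfl⟩
  · rcases h.lin hs hu with h1 | h1
    · exact Or.inl fun z hz => k_trans h1 hz
    · rcases k_iff.1 h1 with rfl | h2
      · exact Or.inl fun z hz => hz
      · exact Or.inr fun z hz => k_trans (h.par h2 hb) (h.q_sub hb hz)
  · obtain ⟨s'', h1, h2⟩ := hu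
    have up : K Pa s'' s → ∀ z, Q Pa Eq s z → Q Pa Eq s' z := by
      intro h3 z hz
      rcases k_iff.1 h3 with rfl | h4
      · exact h.q_eq (h.es _ _ h1) hz
      · exact ⟨s'', h1, k_trans (h.par h4 hb) (h.q_sub hb hz)⟩
    rcases h.lin hs h2 with h3 | h3
    · rcases k_iff.1 h3 with rfl | h4
      · exact Or.inr (up (k_refl _))
      · left
        rintro z ⟨s3, h5, h6⟩
        obtain ⟨c, h7, h8⟩ := h.ep _ _ (h.et _ _ _ (h.es _ _ h1) h5)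
        exact k_trans (k_trans (h.par h4 h7) (pa_k h8)) h6
    · exact Or.inr (up h3)
  · right
    intro z hz
    exact h.cm_k hu (k_trans (pa_k hb) hs) (h.q_sub hb hz)

theorem lam (h : Fst Pa Eq) (hS : Cone Pa Eq S) (hS' : Cone Pa Eq S') (hu : S u) (hu' : S' u) :
    (∀ z, S z → S' z) ∨ ∀ z, S' z → S z := by
  have kk : ∀ b, K Pa b u → (∀ z, S z → K Pa b z) ∨ ∀ z, K Pa b z → S z := by
    intro b hb
    by_cases h0 : S b
    · exact Or.inr fun z hz => h.down hS h0 hz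
    · left
      rcases hS with ⟨b', rfl⟩ | ⟨s, rfl⟩ | ⟨w, rfl⟩
      · rcases h.lin hb hu with h1 | h1
        · exact fun z hz => k_trans h1 hz
        · exact absurd h1 h0
      · obtain ⟨s', h1, h2⟩ := hu
        rcases h.lin hb h2 with h3 | h3
        · rcases k_iff.1 h3 with rfl | h4
          · exact absurd ⟨_, h1, k_refl _⟩ h0
          · rintro z ⟨s3, h5, h6⟩
            obtain ⟨c, h7, h8⟩ := h.ep _ _ (h.et _ _ _ (h.es _ _ h1) h5)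
            exact k_trans (k_trans (h.par h4 h7) (pa_k h8)) h6
        · exact absurd ⟨s', h1, h3⟩ h0
      · exact absurd (h.cm_k hu hb (k_refl b)) h0
  rcases hS' with ⟨b', rfl⟩ | ⟨s, rfl⟩ | ⟨w, rfl⟩
  · exact kk b' hu'
  · obtain ⟨s', h1, h2⟩ := hu'
    obtain ⟨c, h3, h4⟩ := h.ep _ _ h1
    rcases h.lemB hS hu h2 h4 with h5 | h5
    · exact Or.inl fun z hz => ⟨s', h1, h5 z hz⟩
    · exact Or.inr fun z hz => h5 z (h.q_eq h1 hz)
  · rcases hS with ⟨b, rfl⟩ | ⟨s, rfl⟩ | ⟨w', rfl⟩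
    · exact Or.inl fun z hz => h.cm_k hu' hu hz
    · left
      rintro z hz
      obtain ⟨s', h1, h2⟩ := hu
      obtain ⟨c, h3, h4⟩ := h.ep _ _ h1
      exact h.cm_k hu' (k_trans (pa_k h4) h2) (h.q_sub h3 hz)
    · exact Or.inl fun z hz => h.cm_trans (h.cm_trans hu' (h.cm_symm hu)) hz

/-- The lowest common point above. -/
theorem lca (h : Fst Pa Eq) (h1 : Cm Pa u w) : ∃ b, K Pa b u ∧ K Pa b w ∧
    ∀ b', K Pa b' u → K Pa b' w → K Pa b' b := by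
  classical
  have hex : ∃ n b, Stp (Up Pa) n u b ∧ K Pa b w := by
    obtain ⟨b, ⟨n, hn⟩, h2⟩ := h1
    exact ⟨n, b, hn, h2⟩
  obtain ⟨b, h2, h3⟩ := Nat.find_spec hex
  refine ⟨b, ⟨_, h2⟩, h3, ?_⟩
  rintro b' ⟨m, hm⟩ h4
  exact h.sub _ m u b b' h2 hm (Nat.find_min' hex ⟨b', hm, h4⟩)

/-! ### The relation of the cones -/

theorem irrD (_h : Fst Pa Eq) : ¬ D Pa Eq u v u := by
  rw [d_iff]
  rintro (⟨-, h1⟩ | ⟨S, -, ⟨h1, -⟩, h2⟩)
  · exact h1 rfl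
  · exact h2 h1

theorem symD (_h : Fst Pa Eq) (hd : D Pa Eq u v w) : D Pa Eq v u w := by
  rw [d_iff] at hd ⊢
  rcases hd with ⟨rfl, h1⟩ | ⟨S, h1, ⟨h2, h3⟩, h4⟩
  · exact Or.inl ⟨rfl, h1⟩
  · exact Or.inr ⟨S, h1, ⟨h3, h2⟩, h4⟩

theorem c2 (h : Fst Pa Eq) (hd : D Pa Eq u v w) : ¬ D Pa Eq u w v := by
  rw [d_iff] at hd ⊢
  rintro (⟨rfl, h1⟩ | ⟨S, h1, ⟨h2, h3⟩, h4⟩)
  · rcases hd with ⟨rfl, h2⟩ | ⟨S, -, ⟨h2, -⟩, h4⟩
    · exact h2 rfl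
    · exact h4 h2
  · rcases hd with ⟨rfl, -⟩ | ⟨S', k1, ⟨k2, k3⟩, k4⟩
    · exact h4 h2
    · rcases h.lam h1 k1 h2 k2 with h5 | h5
      · exact k4 (h5 _ h3)
      · exact h4 (h5 _ k3)

theorem c3 (_h : Fst Pa Eq) (hd : D Pa Eq u v w) (z : ℕ) : D Pa Eq u v z ∨ D Pa Eq z v w := by
  rw [d_iff] at hd
  rcases hd with ⟨rfl, h1⟩ | ⟨S, h1, ⟨h2, h3⟩, h4⟩
  · by_cases hz : u = z
    · subst hz
      exact Or.inr (Or.inl ⟨rfl, h1⟩)
    · exact Or.inl (Or.inl ⟨rfl, hz⟩)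
  · by_cases hz : S z
    · exact Or.inr (d_of h1 hz h3 h4)
    · exact Or.inl (d_of h1 h2 h3 hz)

/-- The relation below: the second entry. -/
theorem m2 (h : Fst Pa Eq) (hd : D Pa Eq u c w) : M Pa w c ↔ M Pa w u := by
  rw [d_iff] at hd
  have key : ∀ (S : ℕ → Prop) (u c : ℕ), Cone Pa Eq S → S u → S c → ¬ S w →
      M Pa w u → M Pa w c := by
    intro S u c h1 h2 h3 h4 h5
    have h6 : K Pa w c := by
      rcases h.lam h1 (Or.inl ⟨w, rfl⟩) h2 h5.k with h7 | h7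
      · exact h7 c h3
      · exact absurd (h7 w (k_refl w)) h4
    rcases k_iff.1 h6 with rfl | h7
    · exact absurd h3 h4
    · exact h7
  rcases hd with ⟨rfl, h1⟩ | ⟨S, h1, ⟨h2, h3⟩, h4⟩
  · exact Iff.rfl
  · exact ⟨key S c u h1 h3 h2 h4, key S u c h1 h2 h3 h4⟩

/-- The relation below: the first entry. -/
theorem m1 (h : Fst Pa Eq) (hd : D Pa Eq u c w) : M Pa c w ↔ M Pa u w := by
  rw [d_iff] at hd
  rcases hd with ⟨rfl, h1⟩ | ⟨S, h1, ⟨h2, h3⟩, h4⟩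
  · exact Iff.rfl
  · exact iff_of_false (fun h5 => h4 (h.down h1 h3 h5.k)) fun h5 => h4 (h.down h1 h2 h5.k)

/-- Immediate predecessors. -/
theorem im (h : Fst Pa Eq) : (M Pa b v ∧ ∀ u, M Pa u v → u = b ∨ M Pa u b) ↔ Pa b v := by
  constructor
  · rintro ⟨h1, h2⟩
    obtain ⟨c, h3, h4⟩ := h1
    rcases h2 c (pa_m h3) with rfl | h5
    · exact h3
    · exact absurd (m_km h5 h4) (h.ac c)
  · intro h1
    refine ⟨pa_m h1, fun u hu => ?_⟩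
    exact k_iff.1 (h.par hu h1)

end Fst

end facts

end Pool.Agent.K7.H41.BL
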