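import Pool.Agent.K7.H41.BL.Cmp

set_option autoImplicit false

/-!
Structures along a given rooted forest.
-/

namespace Pool.Agent.K7.H41.BL

open Pool.Agent.H533R2.VO (RS RIso)
open Pool.Agent.H533R2.VS
open Pool.Agent.TH425.FF
open Pool.Agent.K7.H41.NC (Stp Ok xex xall tpn m_dec m_eq m_at p2_act)

variable {A : ℕ → ℕ} {V : RS A → Prop}

/-- `b` is the parent of `v`. -/
def Pf (φ : ℕ) (x : RS A) (b v : ℕ) : Prop := x φ (p2 v b) = true

/-- The parents. -/
def PAf (φ : ℕ) (_p : List ℕ) (x : RS A) (b v : ℕ) : Prop := Pf φ x b v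

/-- The siblings. -/
def EQf (φ : ℕ) (_p : List ℕ) (x : RS A) (v w : ℕ) : Prop := ∃ b, Pf φ x b v ∧ Pf φ x b w

theorem r_Pf (φ : ℕ) (σ : Equiv.Perm ℕ) (x : RS A) (b v : ℕ) :
    Pf φ (act σ x) (σ b) (σ v) ↔ Pf φ x b v := by
  show x φ (σ.symm ∘ _) = true ↔ _
  rw [p2_act]
  exact Iff.rfl

theorem cnf_f (φ : ℕ) : Cnf (PAf (A := A) φ) (EQf (A := A) φ) where
  mp _ _ _ := m_eq (m_at φ _)
  me _ _ _ := Measurable.exists fun _ => (m_eq (m_at φ _)).and (m_eq (m_at φ _))
  cp σ _ x b v := r_Pf φ σ x b v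
  ce σ _ x b v := xex σ fun c => and_congr (r_Pf φ σ x c b) (r_Pf φ σ x c v)

/-- Remove the relation number `φ`. -/
def erf (φ : ℕ) (_p : List ℕ) (z : RS A) : RS A := fun i v => if i = φ then false else z i v

open Classical in
/-- Restore the relation number `φ`. -/
noncomputable def stf (φ : ℕ) (p : List ℕ) (z : RS A) : RS A := fun i v =>
  if i = φ then decide (∃ r, p[0]? = some r ∧
    (∀ j, (j.val = 0 → v j ≠ r) ∧ (j.val ≠ 0 → v j = r))) else z i v

/-- The structures in `V` with a parent for all the elements but one. -/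
def Vf (φ : ℕ) (V : RS A → Prop) : RS A → Prop := PExp (erf φ) (stf φ) V

theorem pc_f (φ : ℕ) : PCanon (erf (A := A) φ) (stf (A := A) φ) where
  meas p := by
    refine measurable_pi_iff.2 fun i => measurable_pi_iff.2 fun t => ?_
    unfold erf
    by_cases h : i = φ
    · simp only [if_pos h]
      exact measurable_const
    · simp only [if_neg h]
      exact m_at i t
  dmeas p := by
    refine measurable_pi_iff.2 fun i => measurable_pi_iff.2 fun t => ?_
    unfold stf
    by_cases h : i = φ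
    · simp only [if_pos h]
      exact measurable_const
    · simp only [if_neg h]
      exact m_at i t
  cact σ p z := rfl
  dact σ p z := by
    classical
    funext i v
    show (if i = φ then decide (∃ r, (p.map σ)[0]? = some r ∧
      (∀ j, (j.val = 0 → v j ≠ r) ∧ (j.val ≠ 0 → v j = r))) else z i (σ.symm ∘ v)) =
      if i = φ then decide (∃ r, p[0]? = some r ∧
        (∀ j, (j.val = 0 → σ.symm (v j) ≠ r) ∧ (j.val ≠ 0 → σ.symm (v j) = r)))
        else z i (σ.symm ∘ v)
    by_cases h : i = φ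
    · rw [if_pos h, if_pos h]
      refine decide_eq_decide.2 (xex σ fun r => and_congr (map_0 σ p r) ?_)
      refine forall_congr' fun j => ?_
      have h5 : v j = σ r ↔ σ.symm (v j) = r := (Equiv.symm_apply_eq σ).symm
      exact and_congr (imp_congr Iff.rfl (not_congr h5)) (imp_congr Iff.rfl h5)
    · rw [if_neg h, if_neg h]

theorem Ok.vf (φ : ℕ) (h : Ok V) : Ok (Vf φ V) := h.pexp (pc_f φ)

/-- The structure along a forest, given by the relation number `φ`, with structures in `V` on the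
sets of siblings with their parents. -/
def Frs (φ : ℕ) (V : RS A → Prop) (x : RS A) : Prop :=
  (∀ b b' v, Pf φ x b v → Pf φ x b' v → b = b') ∧ (∀ b, ¬ M (Pf φ x) b b) ∧
  (∀ i, i ≠ φ → ∀ t : Fin (A i) → ℕ, x i t = true → (∃ j l, t j ≠ t l) →
    ∃ b, ∀ j, t j = b ∨ Pf φ x b (t j)) ∧
  ∀ b : ℕ, ∀ f : ℕ → ℕ, Function.Injective f → (∀ w, (∃ n, f n = w) ↔ w = b ∨ Pf φ x b w) →
    V (erf φ [] (rmc fun i v => x i (f ∘ v)))

theorem p2_cases {n : ℕ} (hn : n = 2) (t : Fin n → ℕ) : ∃ u v, t = p2 u v :=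
  Pool.Agent.K7.H41.NC.eta2' hn t

theorem frs_fw {φ : ℕ} (hφ : A φ = 2) {x : RS A} (h : Frs φ V x) :
    FW (PAf φ) (EQf φ) (Vf φ V) x := by
  classical
  obtain ⟨h1, h2, h3, h4⟩ := h
  have hpl : ∀ j : Fin (A φ), j.val = 0 ∨ j.val = 1 := fun j => by
    have := j.2
    omega
  have hF : Fst (Pf φ x) (EQf φ [] x) := by
    refine ⟨h1, h2, ?_, ?_, ?_, ?_⟩
    · rintro v w ⟨b, h5, h6⟩
      exact ⟨b, h6, h5⟩
    · rintro u v w ⟨b, h5, h6⟩ ⟨c, h7, h8⟩
      obtain rfl := h1 _ _ _ h6 h7
      exact ⟨b, h5, h8⟩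
    · rintro v w ⟨b, h5⟩
      exact ⟨b, h5⟩
    · exact fun b v h5 => ⟨b, h5, h5⟩
  have hne : ∀ b v, Pf φ x b v → v ≠ b := by
    rintro b v h5 rfl
    exact h2 v (pa_m h5)
  refine fw_of (p := []) hF ?_ ?_
  · intro b s0 hs f hf hfr
    have hfr' : ∀ w, (∃ n, f n = w) ↔ w = b ∨ Pf φ x b w := by
      intro w
      rw [hfr w]
      refine or_congr Iff.rfl ⟨?_, fun h5 => ⟨b, hs, h5⟩⟩
      rintro ⟨c, h5, h6⟩
      obtain rfl := h1 _ _ _ hs h5
      exact h6
    obtain ⟨n0, hn0⟩ := (hfr' b).2 (Or.inl rfl)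
    refine ⟨[n0], h4 b f hf hfr', ?_⟩
    funext i v
    by_cases hi : i = φ
    · subst hi
      rw [Bool.eq_iff_iff]
      refine Iff.trans (b := ∃ r, ([n0] : List ℕ)[0]? = some r ∧
        (∀ j : Fin (A i), (j.val = 0 → v j ≠ r) ∧ (j.val ≠ 0 → v j = r))) ?_ ?_
      · unfold stf
        rw [if_pos rfl]
        exact @decide_eq_true_iff _ (Classical.propDecidable _)
      · have h7 : (∃ r, ([n0] : List ℕ)[0]? = some r ∧
            (∀ j : Fin (A i), (j.val = 0 → v j ≠ r) ∧ (j.val ≠ 0 → v j = r))) ↔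
            (∀ j : Fin (A i), (j.val = 0 → v j ≠ n0) ∧ (j.val ≠ 0 → v j = n0)) := by
          constructor
          · rintro ⟨r, hr, h8⟩
            obtain rfl : n0 = r := Option.some.inj hr
            exact h8
          · exact fun h8 => ⟨n0, rfl, h8⟩
        rw [h7]
        obtain ⟨c, d, rfl⟩ := p2_cases hφ v
        have h8 : f ∘ (p2 c d : Fin (A i) → ℕ) = p2 (f c) (f d) := by
          funext j
          show f (if j.val = 0 then c else d) = if j.val = 0 then f c else f d
          split_ifs <;> rfl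
        have e0 : (p2 c d : Fin (A i) → ℕ) ⟨0, by omega⟩ = c := rfl
        have e1 : (p2 c d : Fin (A i) → ℕ) ⟨1, by omega⟩ = d := rfl
        have h9 : (∀ j : Fin (A i), (j.val = 0 → (p2 c d : Fin (A i) → ℕ) j ≠ n0) ∧
            (j.val ≠ 0 → (p2 c d : Fin (A i) → ℕ) j = n0)) ↔ c ≠ n0 ∧ d = n0 := by
          constructor
          · intro h9
            exact ⟨(h9 ⟨0, by omega⟩).1 rfl, (h9 ⟨1, by omega⟩).2 one_ne_zero⟩
          · rintro ⟨h9, h10⟩ j
            refine ⟨fun h11 => ?_, fun h11 => ?_⟩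
            · show (if j.val = 0 then c else d) ≠ n0
              rw [if_pos h11]
              exact h9
            · show (if j.val = 0 then c else d) = n0
              rw [if_neg h11]
              exact h10
        rw [h9]
        show _ ↔ (if ∃ j l, (p2 c d : Fin (A i) → ℕ) j ≠ p2 c d l then
          x i (f ∘ (p2 c d : Fin (A i) → ℕ)) else false) = true
        rw [h8]
        constructor
        · rintro ⟨h10, rfl⟩
          rw [if_pos ⟨⟨0, by omega⟩, ⟨1, by omega⟩, h10⟩]
          rcases (hfr' (f c)).1 ⟨c, rfl⟩ with h11 | h11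
          · exact absurd (hf (h11.trans hn0.symm)) h10
          · have h12 : Pf i x (f d) (f c) := by
              rw [hn0]
              exact h11
            exact h12
        · intro h10
          split_ifs at h10 with h11
          have h12 : Pf i x (f d) (f c) := h10
          have h13 : f d = b := by
            rcases (hfr' (f d)).1 ⟨d, rfl⟩ with h14 | h14
            · exact h14
            · rcases (hfr' (f c)).1 ⟨c, rfl⟩ with h15 | h15
              · rw [h15] at h12
                exact absurd (m_km (pa_m h12) (pa_k h14)) (h2 (f d))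
              · exact h1 _ _ _ h12 h15
          have h14 : f c ≠ b := by
            rw [← h13]
            exact hne _ _ h12
          refine ⟨?_, hf (h13.trans hn0.symm)⟩
          rintro rfl
          exact h14 hn0
    · show (if i = φ then _ else erf φ [n0] (rmc fun i v => x i (f ∘ v)) i v) = _
      rw [if_neg hi]
      show (if i = φ then _ else (rmc fun i v => x i (f ∘ v)) i v) = _
      rw [if_neg hi]
  · intro i t hi ht
    by_cases hiφ : i = φ
    · subst hiφ
      obtain ⟨c, d, rfl⟩ := p2_cases hφ t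
      have h5 : Pf i x d c := hi
      have h6 : ∀ j : Fin (A i), (p2 c d : Fin (A i) → ℕ) j = d ∨
          Pf i x d ((p2 c d : Fin (A i) → ℕ) j) := by
        intro j
        by_cases hj : j.val = 0
        · right
          have : (p2 c d : Fin (A i) → ℕ) j = c := if_pos hj
          rw [this]
          exact h5
        · left
          exact if_neg hj
      exact ⟨d, h6, fun j l h7 h8 => ⟨d, (h6 j).resolve_left h7, (h6 l).resolve_left h8⟩⟩
    · obtain ⟨b, h5⟩ := h3 i hiφ t hi ht
      exact ⟨b, h5, fun j l h7 h8 => ⟨b, (h5 j).resolve_left h7, (h5 l).resolve_left h8⟩⟩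

/-- **The closure theorem for forests.** -/
theorem vcu_forests (hA : ∀ i, 0 < A i) {φ : ℕ} (hφ : A φ = 2) (hV : Ok V) : VCu (Frs φ V) := by
  have h1 : Ok (FW (PAf (A := A) φ) (EQf φ) (Vf φ V)) := (cnf_f φ).ok hA (Ok.vf φ hV)
  intro B hB hi hBV
  exact h1.vc B hB hi fun x hx => frs_fw hφ (hBV x hx)

end Pool.Agent.K7.H41.BL
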