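import Pool.Agent.K7.H41.BL.Blk
import Pool.Agent.H533R2.VS.All2

set_option autoImplicit false

/-!
The Gaifman graph, its blocks and its components.
-/

namespace Pool.Agent.K7.H41.BL

open MeasureTheory
open Pool.Agent.H533R2.VO (RS RIso)
open Pool.Agent.H533R2.VS
open Pool.Agent.TH425.FF
open Pool.Agent.K7.H41.NC (Stp xex xall r_stp b_stp tpn m_dec m_eq m_at Ok p2_act)

variable {A : ℕ → ℕ} {V : RS A → Prop}

/-- Adjacency in the Gaifman graph. -/
def adj (x : RS A) (u v : ℕ) : Prop := u ≠ v ∧ ∃ (i : ℕ) (t : Fin (A i) → ℕ), x i t = true ∧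
  (∃ j, t j = u) ∧ ∃ l, t l = v

theorem adj_symm {x : RS A} (u v : ℕ) (h : adj x u v) : adj x v u := by
  obtain ⟨h1, i, t, h2, h3, h4⟩ := h
  exact ⟨h1.symm, i, t, h2, h4, h3⟩

/-! ### Relabelling -/

section canon

variable {N N' : ℕ → ℕ → Prop} (σ : Equiv.Perm ℕ)

theorem r_av (h : ∀ u v, N' (σ u) (σ v) ↔ N u v) (b u v : ℕ) :
    Av N' (σ b) (σ u) (σ v) ↔ Av N b u v :=
  and_congr (h u v) (and_congr (not_congr σ.injective.eq_iff) (not_congr σ.injective.eq_iff))

theorem r_C (h : ∀ u v, N' (σ u) (σ v) ↔ N u v) (b u v : ℕ) :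
    C N' (σ b) (σ u) (σ v) ↔ C N b u v :=
  and_congr (not_congr σ.injective.eq_iff) (exists_congr fun n => r_stp σ (r_av σ h b) n u v)

theorem r_Dm (h : ∀ u v, N' (σ u) (σ v) ↔ N u v) (r b w : ℕ) :
    Dm N' (σ r) (σ b) (σ w) ↔ Dm N r b w :=
  and_congr (not_congr σ.injective.eq_iff) (not_congr (r_C σ h b w r))

theorem r_PN (h : ∀ u v, N' (σ u) (σ v) ↔ N u v) (r b v : ℕ) :
    PN N' (σ r) (σ b) (σ v) ↔ PN N r b v :=
  and_congr (r_Dm σ h r b v) (xall σ fun u => imp_congr (r_Dm σ h r u v)
    (or_congr σ.injective.eq_iff (r_Dm σ h r u b)))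

theorem r_EN (h : ∀ u v, N' (σ u) (σ v) ↔ N u v) (r v w : ℕ) :
    EN N' (σ r) (σ v) (σ w) ↔ EN N r v w :=
  xex σ fun b => and_congr (and_congr (r_PN σ h r b v) (r_PN σ h r b w)) (r_C σ h b v w)

theorem r_adj (x : RS A) (u v : ℕ) : adj (act σ x) (σ u) (σ v) ↔ adj x u v := by
  refine and_congr (not_congr σ.injective.eq_iff) (exists_congr fun i =>
    xex (tpn σ _) fun t => and_congr ?_ (and_congr (exists_congr fun j => σ.injective.eq_iff)
      (exists_congr fun j => σ.injective.eq_iff)))
  rw [show tpn σ _ t = σ ∘ t from rfl, x_act]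

end canon

/-! ### Measurability -/

section meas

variable {X : Type} [MeasurableSpace X] {N : X → ℕ → ℕ → Prop}

theorem b_C (h : ∀ u v, Measurable fun x => N x u v) (b u v : ℕ) :
    Measurable fun x => C (N x) b u v :=
  measurable_const.and (Measurable.exists fun n =>
    b_stp (N := fun x => Av (N x) b) (fun u v => (h u v).and measurable_const) n u v)

theorem b_Dm (h : ∀ u v, Measurable fun x => N x u v) (r b w : ℕ) :
    Measurable fun x => Dm (N x) r b w := measurable_const.and (b_C h b w r).not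

theorem b_PN (h : ∀ u v, Measurable fun x => N x u v) (r b v : ℕ) :
    Measurable fun x => PN (N x) r b v :=
  (b_Dm h r b v).and (Measurable.forall fun u => (b_Dm h r u v).imp
    (measurable_const.or (b_Dm h r u b)))

theorem b_EN (h : ∀ u v, Measurable fun x => N x u v) (r v w : ℕ) :
    Measurable fun x => EN (N x) r v w :=
  Measurable.exists fun b => ((b_PN h r b v).and (b_PN h r b w)).and (b_C h b v w)

theorem b_adj (u v : ℕ) : Measurable fun x : RS A => adj x u v :=
  measurable_const.and (Measurable.exists fun i => Measurable.exists fun t =>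
    (b_at measurable_id i t).and measurable_const)

end meas

/-! ### The forest of a connected structure with a root -/

/-- The parents. -/
def PAb (p : List ℕ) (x : RS A) (b v : ℕ) : Prop := ∃ r, p[0]? = some r ∧ PN (adj x) r b v

/-- The classes of siblings. -/
def EQb (p : List ℕ) (x : RS A) (v w : ℕ) : Prop := ∃ r, p[0]? = some r ∧ EN (adj x) r v w

theorem map_0 (σ : Equiv.Perm ℕ) (p : List ℕ) (r : ℕ) :
    (p.map σ)[0]? = some (σ r) ↔ p[0]? = some r := by
  cases p with
  | nil => simp
  | cons a p => simp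

theorem cnf_b : Cnf (PAb (A := A)) (EQb (A := A)) where
  mp _ b v := Measurable.exists fun r => measurable_const.and (b_PN b_adj r b v)
  me _ b v := Measurable.exists fun r => measurable_const.and (b_EN b_adj r b v)
  cp σ p x b v := xex σ fun r => and_congr (map_0 σ p r) (r_PN σ (r_adj σ x) r b v)
  ce σ p x b v := xex σ fun r => and_congr (map_0 σ p r) (r_EN σ (r_adj σ x) r b v)

/-- The structures on the infinite blocks, without constant tuples, are in `V`. -/
def Bks (V : RS A → Prop) (x : RS A) : Prop := ∀ B : ℕ → Prop, Blk (adj x) B →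
  ∀ f : ℕ → ℕ, Function.Injective f → (∀ w, (∃ n, f n = w) ↔ B w) →
    V (rmc fun i v => x i (f ∘ v))

/-- A connected structure whose infinite blocks are in `V`. -/
theorem conn_fw {x : RS A} (hc : ∀ u, ∃ n, Stp (adj x) n u 0) (hB : Bks V x) :
    FW PAb EQb V x := by
  have h : Rg (adj x) 0 := ⟨adj_symm, hc⟩
  have e1 : PAb [0] x = PN (adj x) 0 := by
    funext b v
    refine propext ⟨?_, fun h1 => ⟨0, rfl, h1⟩⟩
    rintro ⟨r, hr, h1⟩
    obtain rfl : 0 = r := Option.some.inj hr
    exact h1
  have e2 : EQb [0] x = EN (adj x) 0 := by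
    funext b v
    refine propext ⟨?_, fun h1 => ⟨0, rfl, h1⟩⟩
    rintro ⟨r, hr, h1⟩
    obtain rfl : 0 = r := Option.some.inj hr
    exact h1
  refine fw_of (p := [0]) ?_ ?_ ?_
  · rw [e1, e2]
    exact h.forest
  · rw [e1, e2]
    intro b s0 hs f hf hf'
    exact hB _ (h.blk hs) f hf hf'
  · rw [e1, e2]
    intro i t hi ht
    exact h.clique t (fun j l hjl => ⟨hjl, i, t, hi, ⟨j, rfl⟩, ⟨l, rfl⟩⟩) ht

/-! ### Components -/

/-- The arities with one more binary relation. -/
def aS (A : ℕ → ℕ) : ℕ → ℕ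
  | 0 => 2
  | n + 1 => A n

open Classical in
/-- The equivalence relation of the components. -/
noncomputable def c0 (x : RS A) (t : Fin 2 → ℕ) : Bool :=
  decide (∃ n, Stp (adj x) n (t 0) (t 1))

theorem c0_act (σ : Equiv.Perm ℕ) (z : RS A) (t : Fin 2 → ℕ) :
    c0 (act σ z) t = c0 z (σ.symm ∘ t) := by
  refine decide_eq_decide.2 (exists_congr fun n => ?_)
  have h := r_stp σ (r_adj σ z) n (σ.symm (t 0)) (σ.symm (t 1))
  rw [σ.apply_symm_apply, σ.apply_symm_apply] at h
  exact h

theorem b_c0 (t : Fin 2 → ℕ) : Measurable fun x : RS A => c0 x t := by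
  classical
  exact m_dec (Measurable.exists fun n => b_stp b_adj n _ _)

/-- Add the equivalence relation of the components. -/
noncomputable def cS (x : RS A) : RS (aS A)
  | 0 => c0 x
  | n + 1 => x n

/-- Remove the first relation. -/
def dS (y : RS (aS A)) : RS A := fun n => y (n + 1)

/-- Add the empty relation. -/
def eS (x : RS A) : RS (aS A)
  | 0 => fun _ => false
  | n + 1 => x n

/-- The class of the structures in `V` with an empty first relation. -/
def V0 (V : RS A → Prop) : RS (aS A) → Prop := PExp (fun _ y => dS y) (fun _ x => eS x) V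

/-- The class of the disjoint unions. -/
def Sm (V : RS A → Prop) : RS A → Prop :=
  PExp (fun _ x => cS x) (fun _ y => dS y) (IsSum 0 (fun _ => false) DecG (V0 V))

open Classical in
theorem pc_eS : PCanon (fun _ y => dS y) (fun _ x => (eS x : RS (aS A))) where
  meas p := measurable_pi_iff.2 fun i => measurable_pi_iff.2 fun t => m_at (a := aS A) (i + 1) t
  dmeas p := by
    refine measurable_pi_iff.2 fun i => measurable_pi_iff.2 fun t => ?_
    cases i with
    | zero => exact measurable_const
    | succ n => exact m_at n t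
  cact σ p z := rfl
  dact σ p z := by
    funext i t
    cases i with
    | zero => rfl
    | succ n => rfl

open Classical in
theorem pc_cS : PCanon (fun _ x => (cS x : RS (aS A))) (fun _ y => dS y) where
  meas p := by
    refine measurable_pi_iff.2 fun i => measurable_pi_iff.2 fun t => ?_
    cases i with
    | zero => exact b_c0 t
    | succ n => exact m_at n t
  dmeas p := measurable_pi_iff.2 fun i => measurable_pi_iff.2 fun t => m_at (a := aS A) (i + 1) t
  cact σ p z := by
    funext i t
    cases i with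
    | zero => exact c0_act σ z t
    | succ n => rfl
  dact σ p z := rfl

theorem Ok.v0 (h : Ok V) : Ok (V0 V) := Ok.pexp h pc_eS

theorem ok_sm (hA : ∀ i, 0 < A i) (h : Ok V) : Ok (Sm V) := by
  have h1 := Ok.v0 h
  have h2 : ∀ i, 0 < aS A i := by
    intro i
    cases i with
    | zero => exact two_pos
    | succ n => exact hA n
  have h3 := ok_dec (aS A)
  have h4 : Ok (IsSum 0 (fun _ => false) DecG (V0 V) : RS (aS A) → Prop) :=
    ⟨vs_clo (aS A) h2 0 rfl _ _ _ h3.vc h1.vc, vs_kis _ _ _ _ _ h3.co h1.co, vs_nis _ _ _ _ _⟩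
  exact h4.pexp pc_cS

/-- The structures whose infinite components are in `V`. -/
theorem sm_of {x : RS A} (h : ∀ (u : ℕ) (e : ℕ → ℕ), Function.Injective e →
    (∀ z, (∃ n, Stp (adj x) n u z) ↔ ∃ n, e n = z) → V fun i v => x i (e ∘ v)) : Sm V x := by
  classical
  have h0 : ∀ u v, cS x 0 (p2 u v) = true ↔ ∃ n, Stp (adj x) n u v := by
    intro u v
    exact decide_eq_true_iff
  refine ⟨[], ⟨fun u => (h0 u u).2 ⟨0, rfl⟩, ?_, ?_, ?_, ?_, ?_, ?_⟩, rfl⟩
  · intro u v h1
    rw [h0] at h1 ⊢
    obtain ⟨n, hn⟩ := h1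
    exact ⟨n, stp_symm adj_symm n u v hn⟩
  · intro u v w h1 h2
    rw [h0] at h1 h2 ⊢
    obtain ⟨n, hn⟩ := h1
    obtain ⟨m, hm⟩ := h2
    exact ⟨n + m, stp_add n m _ _ _ hn hm⟩
  · intro i hi _ t ht j l
    rw [h0]
    cases i with
    | zero => exact absurd rfl hi
    | succ n =>
      by_cases h1 : t j = t l
      · exact ⟨0, h1.symm⟩
      · exact ⟨1, t l, ⟨h1, n, t, ht, ⟨j, rfl⟩, ⟨l, rfl⟩⟩, rfl⟩
  · intro i hi hk
    exact absurd hk (by decide)
  · intro u e he hz
    refine ⟨[], ?_, ?_⟩
    · have h1 := h u e he fun z => (h0 u z).symm.trans (hz z)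
      refine (iff_of_eq (congrArg V ?_)).1 h1
      funext i v
      show _ = if i + 1 ≠ 0 ∧ false = false then cS x (i + 1) (e ∘ v) else false
      rw [if_pos ⟨Nat.succ_ne_zero i, rfl⟩]
      rfl
    · funext i v
      cases i with
      | zero =>
        show false = if (0 : ℕ) ≠ 0 ∧ false = false then cS x 0 (e ∘ v) else false
        rw [if_neg]
        rintro ⟨h1, -⟩
        exact h1 rfl
      | succ n => rfl
  · intro e _ _
    have h1 : (fun (i : ℕ) (v : Fin (aS A i) → ℕ) =>
        if i ≠ 0 ∧ false = true then cS x i (e ∘ v) else false) =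
        fun _ _ => false := by
      funext i v
      rw [if_neg]
      rintro ⟨-, h2⟩
      exact Bool.false_ne_true h2
    refine (iff_of_eq (congrArg DecG h1)).2 ?_
    refine ⟨fun _ _ _ => rfl, ?_⟩
    intro F hF
    have hne : F.Nonempty := by
      rw [← Finset.card_pos]
      rcases hF with h | h <;> omega
    obtain ⟨m, hm⟩ := hne
    refine ⟨F.erase m, Finset.erase_subset _ _, ?_, ?_, ?_⟩
    · rw [Finset.card_erase_of_mem hm]
      rcases hF with h | h <;> omega
    · rw [Finset.card_erase_of_mem hm]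
      rcases hF with h | h <;> omega
    · intro u _ v _ w _ _ i
      constructor <;> simp

end Pool.Agent.K7.H41.BL
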