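import Pool.Agent.K7.H41.BL.Cod

set_option autoImplicit false

/-!
Structures along a forest: the nodes.
-/

namespace Pool.Agent.K7.H41.BL

open Pool.Agent.H533R2.VO (RS RIso)
open Pool.Agent.H533R2.VS
open Pool.Agent.TH425.FF
open Pool.Agent.W875.TS (p3 IsTree bE rd mx okp sh nz addpt decp V1 rd_mk rd_eq rd_decp rd_decp0 decp_0
  decp_1 decp_2 RS_ext addpt_decp okp_nz okp_comp)

variable {A : ℕ → ℕ} {Pa Eq : ℕ → ℕ → Prop} {x : RS A} {V : RS A → Prop}

theorem rmc_true {a : ℕ → ℕ} (z : RS a) (i : ℕ) (v : Fin (a i) → ℕ) :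
    rmc z i v = true ↔ (∃ j l, v j ≠ v l) ∧ z i v = true := by
  classical
  unfold rmc
  by_cases h : ∃ j l, v j ≠ v l
  · rw [if_pos h]
    exact ⟨fun h1 => ⟨h, h1⟩, fun h1 => h1.2⟩
  · rw [if_neg h]
    exact ⟨fun h1 => absurd h1 (by decide), fun h1 => absurd h1.1 h⟩

theorem okp_sh {k m : ℕ} {t : Fin k → ℕ} (h : okp m (· = ·) t) : ∃ j l, sh m t j ≠ sh m t l := by
  unfold sh
  rcases h with ⟨j, l, h1, h2⟩ | ⟨j, l, h1, h2, h3⟩
  · refine ⟨j, l, ?_⟩
    rw [if_pos h1, if_neg (by rw [h2]; decide)]
    omega
  · refine ⟨j, l, ?_⟩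
    rw [if_pos h1, if_pos h2]
    intro h4
    exact h3 (by omega)

/-- The structure at a node. -/
noncomputable def nd (Pa Eq : ℕ → ℕ → Prop) (x : RS A) (e : ℕ → ℕ) : RS (bE A) :=
  haveI := Classical.propDecidable
  fun i v => if i ≠ 2 ∧ ∃ j l, v j ≠ v l then cod Pa Eq x i (e ∘ v) else false

theorem nd_true (e : ℕ → ℕ) (i : ℕ) (v : Fin (bE A i) → ℕ) :
    nd Pa Eq x e i v = true ↔ (i ≠ 2 ∧ ∃ j l, v j ≠ v l) ∧ cod Pa Eq x i (e ∘ v) = true := by
  classical
  unfold nd
  by_cases h : i ≠ 2 ∧ ∃ j l, v j ≠ v l
  · rw [if_pos h]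
    exact ⟨fun h1 => ⟨h, h1⟩, fun h1 => h1.2⟩
  · rw [if_neg h]
    exact ⟨fun h1 => absurd h1 (by decide), fun h1 => absurd h1.1 h⟩

theorem nd_0 (e : ℕ → ℕ) (u v : ℕ) :
    nd Pa Eq x e 0 (p2 u v) = true ↔ u ≠ v ∧ M Pa (e u) (e v) := by
  rw [nd_true]
  constructor
  · rintro ⟨⟨-, j, l, h1⟩, h2⟩
    refine ⟨?_, (cod_0 _).1 h2⟩
    rintro rfl
    apply h1
    unfold p2
    split_ifs <;> rfl
  · rintro ⟨h1, h2⟩
    exact ⟨⟨by decide, (0 : Fin 2), (1 : Fin 2), h1⟩, (cod_0 _).2 h2⟩

/-- The other relations of a node vanish if there are no relations between children. -/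
theorem nd_n (e : ℕ → ℕ) (he : Function.Injective e)
    (hG : ∀ i m (v : Fin (A i) → ℕ), ¬ G Pa Eq x i m (e ∘ v)) (n : ℕ) (hn : n ≠ 0)
    (t : Fin (bE A n) → ℕ) : nd Pa Eq x e n t = false := by
  rw [← Bool.not_eq_true, nd_true]
  rintro ⟨⟨h1, j, l, h2⟩, h3⟩
  match n, hn, t, h1, j, l, h2, h3 with
  | 0, hn, _, _, _, _, _, _ => exact hn rfl
  | 1, _, t, _, _, _, _, h3 =>
    rw [cod_1] at h3
    exact absurd h3 (by decide)
  | 2, _, _, h1, _, _, _, _ => exact h1 rfl
  | n + 3, _, t, _, j, l, h2, h3 =>
    rw [cod_n] at h3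
    generalize n.unpair.2 = c at h3
    cases c with
    | zero => exact h2 (he (h3.1 j l))
    | succ m =>
      rcases h3 with ⟨v, b, h4, -⟩ | h3
      · exact h2 (he ((h4 j).trans (h4 l).symm))
      · exact hG _ _ _ h3

namespace Fst

section node

variable (h : Fst Pa Eq) {e : ℕ → ℕ}
  (hs : ∀ l m n, l ≠ m → l ≠ n → m ≠ n → ¬ D Pa Eq (e l) (e m) (e n))

include hs in
/-- A cone containing two children contains all of them. -/
theorem two {S : ℕ → Prop} (hS : Cone Pa Eq S) {n m l : ℕ} (hnm : n ≠ m) (hn : S (e n))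
    (hm : S (e m)) : S (e l) := by
  by_contra hc
  have h1 : n ≠ l := by
    rintro rfl
    exact hc hn
  have h2 : m ≠ l := by
    rintro rfl
    exact hc hm
  exact hs n m l hnm h1 h2 (d_of hS hn hm hc)

include h in
/-- Two different entries determine the class. -/
theorem g_two {b' : ℕ} {i : ℕ} {v s' : Fin (A i) → ℕ}
    (h1 : ∀ j, Pa b' (s' j) ∧ K Pa (s' j) (e (v j))) {j l : Fin (A i)} (h2 : s' j ≠ s' l)
    {b : ℕ} (hj : K Pa b (e (v j))) (hl : K Pa b (e (v l))) :
    b = b' ∨ ∃ r, Pa b r ∧ K Pa r (e (v j)) ∧ K Pa r (e (v l)) := by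
  have hj' : K Pa b' (e (v j)) := k_trans (pa_k (h1 j).1) (h1 j).2
  have hl' : K Pa b' (e (v l)) := k_trans (pa_k (h1 l).1) (h1 l).2
  have up : M Pa b' b → False := by
    intro h3
    obtain ⟨r, h4, h5⟩ := m_top.1 h3
    have e1 := h.top_uniq h4 (h1 j).1 (k_trans h5 hj) (h1 j).2
    have e2 := h.top_uniq h4 (h1 l).1 (k_trans h5 hl) (h1 l).2
    exact h2 (e1.symm.trans e2)
  rcases h.lin hj hj' with h3 | h3
  · rcases k_iff.1 h3 with h4 | h4
    · exact Or.inl h4
    · obtain ⟨r, h5, h6⟩ := m_top.1 h4
      exact Or.inr ⟨r, h5, k_trans h6 hj', k_trans h6 hl'⟩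
  · rcases k_iff.1 h3 with h4 | h4
    · exact Or.inl h4.symm
    · exact (up h4).elim

end node

theorem node (h : Fst Pa Eq) (hF : Fib Pa Eq V x) (e : ℕ → ℕ) (he : Function.Injective e)
    (hs : ∀ l m n, l ≠ m → l ≠ n → m ≠ n → ¬ D Pa Eq (e l) (e m) (e n))
    (hc : ∀ u, ¬ D Pa Eq (e 0) (e 1) u → ∃ n, ∀ m, m ≠ n → D Pa Eq u (e n) (e m)) :
    VN V (nd Pa Eq x e) := by
  classical
  have h01 : (0 : ℕ) ≠ 1 := by decide
  by_cases h0 : Cm Pa (e 0) (e 1)
  · obtain ⟨b, hb0, hb1, hb⟩ := h.lca h0
    have hK : ∀ n, K Pa b (e n) := fun n => two hs (Or.inl ⟨b, rfl⟩) h01 hb0 hb1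
    by_cases h1 : ∃ s, Pa b s ∧ Q Pa Eq s (e 0) ∧ Q Pa Eq s (e 1)
    · right
      obtain ⟨s, hs1, hs2, hs3⟩ := h1
      have hQ : ∀ n, Q Pa Eq s (e n) := fun n => two hs (Or.inr (Or.inl ⟨s, rfl⟩)) h01 hs2 hs3
      choose tp htp1 htp2 using hQ
      have htp3 : ∀ n, Pa b (tp n) := by
        intro n
        obtain ⟨c, h2, h3⟩ := h.ep _ _ (htp1 n)
        rw [h.fn _ _ _ hs1 h2]
        exact h3
      have inj : Function.Injective tp := by
        intro n m hnm
        by_contra hne
        have h2 : K Pa (tp n) (e m) := by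
          rw [hnm]
          exact htp2 m
        have h3 : ∀ l, K Pa (tp n) (e l) := fun l => two hs (Or.inl ⟨_, rfl⟩) hne (htp2 n) h2
        exact h.ac b (m_km (pa_m (htp3 n)) (hb _ (h3 0) (h3 1)))
      have surj : ∀ r, Eq s r → ∃ n, tp n = r := by
        intro r hr
        have hbr : Pa b r := by
          obtain ⟨c, h2, h3⟩ := h.ep _ _ hr
          rw [h.fn _ _ _ hs1 h2]
          exact h3
        have h2 : ¬ D Pa Eq (e 0) (e 1) r := by
          rw [d_iff]
          rintro (⟨h3, -⟩ | ⟨S, h3, ⟨h4, h5⟩, h6⟩)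
          · exact h01 (he h3)
          · rcases h.lemB h3 h4 (htp2 0) (htp3 0) with h7 | h7
            · exact h01 (inj (h.top_uniq (htp3 0) (htp3 1) (h7 _ h5) (htp2 1)))
            · exact h6 (h7 r ⟨r, h.et _ _ _ (h.es _ _ (htp1 0)) hr, k_refl r⟩)
        obtain ⟨n, hn⟩ := hc r h2
        refine ⟨n, ?_⟩
        have h3 := hn (n + 1) (by omega)
        rw [d_iff] at h3
        rcases h3 with ⟨h4, -⟩ | ⟨S, h4, ⟨h5, h6⟩, h7⟩
        · exact h.top_uniq (htp3 n) hbr (htp2 n) (h4 ▸ k_refl r)
        · rcases h.lemB h4 h5 (k_refl r) hbr with h8 | h8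
          · exact h.top_uniq (htp3 n) hbr (htp2 n) (h8 _ h6)
          · refine absurd (h8 (e (n + 1)) ?_) h7
            exact ⟨tp (n + 1), h.et _ _ _ (h.es _ _ hr) (htp1 _), htp2 _⟩
      -- the enumeration of the class with its parent
      let f : ℕ → ℕ := fun n => if n = 0 then b else tp (n - 1)
      have f0 : f 0 = b := rfl
      have f1 : ∀ n, f (n + 1) = tp n := fun n => rfl
      have hbt : ∀ n, b ≠ tp n := fun n hn => h.ac b (by
        have h2 := pa_m (htp3 n)
        rw [← hn] at h2
        exact h2)
      have hf : Function.Injective f := by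
        intro n m hnm
        cases n with
        | zero =>
          cases m with
          | zero => rfl
          | succ m => exact absurd hnm (hbt m)
        | succ n =>
          cases m with
          | zero => exact absurd hnm.symm (hbt n)
          | succ m =>
            have h2 : n = m := inj hnm
            rw [h2]
      have hr : ∀ w, (∃ n, f n = w) ↔ w = b ∨ Eq s w := by
        intro w
        constructor
        · rintro ⟨n, rfl⟩
          cases n with
          | zero => exact Or.inl rfl
          | succ n => exact Or.inr (htp1 n)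
        · rintro (rfl | h2)
          · exact ⟨0, rfl⟩
          · obtain ⟨n, hn⟩ := surj w h2
            exact ⟨n + 1, hn⟩
      let Q0 : RS A := rmc fun i v => x i (f ∘ v)
      have hQc : ∀ i (v : Fin (A i) → ℕ), (¬ ∃ j l, v j ≠ v l) → Q0 i v = false := by
        intro i v hv
        rw [← Bool.not_eq_true, rmc_true]
        exact fun h2 => hv h2.1
      have key : ∀ i m (t : Fin (A i) → ℕ), (∃ j l, t j ≠ t l) →
          (HR Pa Eq x i (m + 1) (e ∘ t) ↔ okp m (· = ·) t ∧ Q0 i (sh m t) = true) := by
        intro i m t ht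
        have hfs : okp m (· = ·) t → (Q0 i (sh m t) = true ↔ x i (mx m (tp ∘ t) b) = true) := by
          intro h2
          have h3 : f ∘ sh m t = mx m (tp ∘ t) b := by
            funext j
            show f (sh m t j) = mx m (tp ∘ t) b j
            unfold sh mx
            split_ifs
            · exact f1 _
            · exact f0
          rw [rmc_true]
          show (_ ∧ x i (f ∘ sh m t) = true) ↔ _
          rw [h3]
          exact ⟨fun h4 => h4.2, fun h4 => ⟨okp_sh h2, h4⟩⟩
        constructor
        · rintro (⟨v, c, h2, -⟩ | ⟨b', s', h2, h3, ⟨j, l, h4⟩, h5, h6⟩)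
          · obtain ⟨j, l, h3⟩ := ht
            exact absurd (he ((h2 j).trans (h2 l).symm)) h3
          · have hb' : b = b' := by
              rcases h.g_two h2 h4 (hK _) (hK _) with h7 | ⟨r, h7, h8, h9⟩
              · exact h7
              · have e1 := h.top_uniq h7 (htp3 _) h8 (htp2 _)
                have e2 := h.top_uniq h7 (htp3 _) h9 (htp2 _)
                have e3 : t j = t l := inj (e1.symm.trans e2)
                refine absurd (h.top_uniq (h2 j).1 (h2 l).1 (h2 j).2 ?_) h4
                show K Pa (s' l) (e (t j))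
                rw [e3]
                exact (h2 l).2
            subst hb'
            have hs' : s' = tp ∘ t := by
              funext j
              exact h.top_uniq (h2 j).1 (htp3 _) (h2 j).2 (htp2 _)
            subst hs'
            have h8 := (okp_comp m tp inj t).1 h5
            exact ⟨h8, (hfs h8).2 h6⟩
        · rintro ⟨h2, h3⟩
          right
          obtain ⟨j, l, h4⟩ := ht
          exact ⟨b, tp ∘ t, fun j => ⟨htp3 _, htp2 _⟩,
            fun j l => h.et _ _ _ (h.es _ _ (htp1 _)) (htp1 _),
            ⟨j, l, fun h5 => h4 (inj h5)⟩, (okp_comp m tp inj t).2 h2, (hfs h2).1 h3⟩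
      have z0 : ∀ t, nd Pa Eq x e 0 t = false := by
        intro t
        rw [← Bool.not_eq_true, nd_true, cod_0]
        rintro ⟨⟨-, h2⟩, h3⟩
        have h4 : t 0 ≠ t 1 := by
          obtain ⟨j, l, h5⟩ := h2
          have h6 : ∀ j : Fin 2, j = 0 ∨ j = 1 := by decide
          intro h7
          rcases h6 j with rfl | rfl <;> rcases h6 l with rfl | rfl
          · exact h5 rfl
          · exact h5 h7
          · exact h5 h7.symm
          · exact h5 rfl
        have h5 : tp (t 0) = tp (t 1) :=
          h.top_uniq (htp3 _) (htp3 _) (k_trans (htp2 _) h3.k) (htp2 _)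
        exact h4 (inj h5)
      have z1 : ∀ t, nd Pa Eq x e 1 t = false := by
        intro t
        rw [← Bool.not_eq_true, nd_true, cod_1]
        exact fun h2 => absurd h2.2 (by decide)
      have z2 : ∀ t, nd Pa Eq x e 2 t = false := by
        intro t
        rw [← Bool.not_eq_true, nd_true]
        exact fun h2 => h2.1.1 rfl
      have z3 : ∀ i c (t : Fin (A i) → ℕ), rd (nd Pa Eq x e) i c t = true ↔
          (∃ j l, t j ≠ t l) ∧ HR Pa Eq x i c (e ∘ t) := by
        intro i c t
        have h2 : rd (nd Pa Eq x e) i c t = true ↔ (∃ j l, t j ≠ t l) ∧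
            rd (cod Pa Eq x) i c (e ∘ t) = true := by
          refine (nd_true e _ _).trans (and_congr ?_ Iff.rfl)
          constructor
          · rintro ⟨-, j, l, h3⟩
            exact ⟨_, _, h3⟩
          · rintro ⟨j, l, h3⟩
            exact ⟨by omega, Fin.cast (Pool.Agent.W875.TS.ix_ar i c).symm j,
              Fin.cast (Pool.Agent.W875.TS.ix_ar i c).symm l, h3⟩
        rw [h2, rd_cod]
      have hrst : rst [] (nd Pa Eq x e) = decp Q0 := by
        refine RS_ext ?_ ?_ ?_ ?_
        · intro u w
          rw [decp_0, ← Bool.not_eq_true]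
          exact fun h2 => (Pool.Agent.W875.TS.mk_0 _ _ _ _ _).1 h2
        · intro u w
          rw [decp_1, ← Bool.not_eq_true]
          exact fun h2 => (Pool.Agent.W875.TS.mk_1 _ _ _ _ _).1 h2
        · intro u w v
          rw [decp_2, ← Bool.not_eq_true]
          exact fun h2 => (Pool.Agent.W875.TS.mk_2 _ _ _ _ _).1 h2
        · intro i c t
          rw [Bool.eq_iff_iff]
          refine (rd_mk _ _ _ _ _ _ _).trans ?_
          cases c with
          | zero =>
            rw [rd_decp0]
            refine iff_of_false ?_ (by decide)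
            rintro (h2 | ⟨-, m, h2, -⟩)
            · rw [z3] at h2
              obtain ⟨⟨j, l, h3⟩, h4, -⟩ := h2
              exact h3 (he (h4 j l))
            · omega
          | succ m =>
            rw [rd_decp, z3]
            constructor
            · rintro (⟨h2, h3⟩ | ⟨-, m', h2, -, t', h4, h5, h6⟩)
              · exact (key i m t h2).1 h3
              · obtain rfl : m' = m := by omega
                rw [z3] at h6
                obtain ⟨h7, h8⟩ := (key i m' t' h5).1 h6.2
                have h9 : sh m' t' = sh m' t := by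
                  funext j
                  unfold sh
                  split_ifs with hj
                  · rw [h4 j hj]
                  · rfl
                rw [h9] at h8
                refine ⟨?_, h8⟩
                rcases h7 with h7 | ⟨j, l, k1, k2, k3⟩
                · exact Or.inl h7
                · refine Or.inr ⟨j, l, k1, k2, ?_⟩
                  rw [← h4 j k1, ← h4 l k2]
                  exact k3
            · rintro ⟨h2, h3⟩
              by_cases ht : ∃ j l, t j ≠ t l
              · exact Or.inl ⟨ht, (key i m t ht).2 ⟨h2, h3⟩⟩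
              · right
                push Not at ht
                rcases h2 with ⟨j, l, h4, h5⟩ | ⟨j, l, -, -, h4⟩
                · refine ⟨ht, m, rfl, ⟨j, h4⟩,
                    fun j => if m.testBit j = true then t j else t j + 1,
                    fun j hj => if_pos hj, ⟨j, l, ?_⟩, ?_⟩
                  · show (if m.testBit j = true then t j else t j + 1) ≠
                      (if m.testBit l = true then t l else t l + 1)
                    rw [if_pos h4, if_neg (by rw [h5]; decide), ht j l]
                    omega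
                  · rw [z3]
                    have h6 : ∃ j l : Fin (A i), (if m.testBit j = true then t j else t j + 1) ≠
                        (if m.testBit l = true then t l else t l + 1) := by
                      refine ⟨j, l, ?_⟩
                      rw [if_pos h4, if_neg (by rw [h5]; decide), ht j l]
                      omega
                    refine ⟨h6, (key i m _ h6).2 ⟨Or.inl ⟨j, l, h4, h5⟩, ?_⟩⟩
                    have h9 : sh m (fun j : Fin (A i) =>
                        if m.testBit j = true then t j else t j + 1) = sh m t := by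
                      funext j
                      unfold sh
                      by_cases hj : m.testBit j = true
                      · simp only [hj, if_true]
                      · rw [if_neg hj, if_neg hj]
                    rw [h9]
                    exact h3
                · exact absurd (ht j l) h4
      refine ⟨[], ?_, ?_⟩
      · rw [hrst]
        refine ⟨fun σ => ?_, by rw [addpt_decp Q0 hQc]⟩
        rw [addpt_decp Q0 hQc]
        have h2 : (fun i (v : Fin (A i) → ℕ) => Q0 i (⇑σ ∘ v)) =
            rmc fun i v => x i ((f ∘ σ) ∘ v) := by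
          funext i v
          rw [Bool.eq_iff_iff, rmc_true, rmc_true]
          refine and_congr ?_ Iff.rfl
          constructor
          · rintro ⟨j, l, h3⟩
            exact ⟨j, l, fun h4 => h3 (congrArg σ h4)⟩
          · rintro ⟨j, l, h3⟩
            exact ⟨j, l, fun h4 => h3 (σ.injective h4)⟩
        rw [h2]
        refine hF b s hs1 (f ∘ σ) (hf.comp σ.injective) fun w => ?_
        rw [← hr w]
        constructor
        · rintro ⟨n, hn⟩
          exact ⟨_, hn⟩
        · rintro ⟨n, hn⟩
          exact ⟨σ.symm n, by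
            show f (σ (σ.symm n)) = w
            rw [σ.apply_symm_apply, hn]⟩
      · rw [hrst]
        show rmc (decp Q0) = nd Pa Eq x e
        refine RS_ext ?_ ?_ ?_ ?_
        · intro u w
          rw [z0, ← Bool.not_eq_true, rmc_true, decp_0]
          exact fun h2 => absurd h2.2 (by decide)
        · intro u w
          rw [z1, ← Bool.not_eq_true, rmc_true, decp_1]
          exact fun h2 => absurd h2.2 (by decide)
        · intro u w v
          rw [z2, ← Bool.not_eq_true, rmc_true, decp_2]
          exact fun h2 => absurd h2.2 (by decide)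
        · intro i c t
          have h2 : rd (rmc (decp Q0)) i c t = true ↔ (∃ j l, t j ≠ t l) ∧
              rd (decp Q0) i c t = true := by
            refine (rmc_true _ _ _).trans (and_congr ?_ Iff.rfl)
            constructor
            · rintro ⟨j, l, h3⟩
              exact ⟨_, _, h3⟩
            · rintro ⟨j, l, h3⟩
              exact ⟨Fin.cast (Pool.Agent.W875.TS.ix_ar i c).symm j,
                Fin.cast (Pool.Agent.W875.TS.ix_ar i c).symm l, h3⟩
          rw [Bool.eq_iff_iff, h2, z3]
          refine and_congr_right fun ht => ?_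
          cases c with
          | zero =>
            rw [rd_decp0]
            refine iff_of_false (by decide) ?_
            rintro ⟨h4, -⟩
            obtain ⟨j, l, h3⟩ := ht
            exact h3 (he (h4 j l))
          | succ m => rw [rd_decp, key i m t ht]
    · left
      have hA : ∀ n m s, n ≠ m → Pa b s → Q Pa Eq s (e n) → Q Pa Eq s (e m) → False := by
        intro n m s hnm h2 h3 h4
        have h5 : ∀ l, Q Pa Eq s (e l) := fun l => two hs (Or.inr (Or.inl ⟨s, rfl⟩)) hnm h3 h4
        exact h1 ⟨s, h2, h5 0, h5 1⟩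
      have hA' : ∀ n m s, n ≠ m → Pa b s → K Pa s (e n) → K Pa s (e m) → False :=
        fun n m s h2 h3 h4 h5 => hA n m s h2 h3 ⟨s, h.er _ _ h3, h4⟩ ⟨s, h.er _ _ h3, h5⟩
      refine decG_of (P := fun n => e n = b) (fun u v => ?_) (fun u v hu hv =>
        he ((show e u = b from hu).trans (show e v = b from hv).symm)) (nd_n e he fun i m v => ?_)
      · rw [nd_0]
        refine and_congr_right fun huv => ⟨fun h2 => ?_, fun h2 => ?_⟩
        · rcases k_iff.1 (hK u) with h3 | h3
          · exact h3.symm
          · obtain ⟨r, h4, h5⟩ := m_top.1 h3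
            exact (hA' u v r huv h4 h5 (k_trans h5 h2.k)).elim
        · rw [h2]
          rcases k_iff.1 (hK v) with h3 | h3
          · exact absurd (he (h2.trans h3)) huv
          · exact h3
      · rintro ⟨b', s', h2, h3, ⟨j, l, h4⟩, -⟩
        have hne : v j ≠ v l := by
          intro h5
          refine h4 (h.top_uniq (h2 j).1 (h2 l).1 (h2 j).2 ?_)
          show K Pa (s' l) (e (v j))
          rw [h5]
          exact (h2 l).2
        rcases h.g_two h2 h4 (hK _) (hK _) with h5 | ⟨r, h5, h6, h7⟩
        · subst h5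
          exact hA _ _ (s' j) hne (h2 j).1 ⟨s' j, h.er _ _ (h2 j).1, (h2 j).2⟩
            ⟨s' l, h3 j l, (h2 l).2⟩
        · exact hA' _ _ r hne h5 h6 h7
  · left
    have hn : ∀ n m, n ≠ m → ¬ Cm Pa (e n) (e m) := by
      intro n m hnm h1
      have h2 : ∀ l, Cm Pa (e n) (e l) := fun l =>
        two hs (S := Cm Pa (e n)) (Or.inr (Or.inr ⟨_, rfl⟩)) hnm
          (show Cm Pa (e n) (e n) from ⟨e n, k_refl _, k_refl _⟩) h1
      exact h0 (h.cm_trans (h.cm_symm (h2 0)) (h2 1))
    refine decG_of (P := fun _ => False) (fun u v => ?_) (fun u v hu => hu.elim)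
      (nd_n e he fun i m v => ?_)
    · rw [nd_0]
      refine and_congr_right fun huv => iff_of_false (fun h2 => ?_) id
      exact hn u v huv ⟨e u, k_refl _, h2.k⟩
    · rintro ⟨b', s', h2, h3, ⟨j, l, h4⟩, -⟩
      have hne : v j ≠ v l := by
        intro h5
        refine h4 (h.top_uniq (h2 j).1 (h2 l).1 (h2 j).2 ?_)
        show K Pa (s' l) (e (v j))
        rw [h5]
        exact (h2 l).2
      exact hn _ _ hne ⟨b', k_trans (pa_k (h2 j).1) (h2 j).2, k_trans (pa_k (h2 l).1) (h2 l).2⟩

end Fst

end Pool.Agent.K7.H41.BL
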