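import Pool.Agent.K7.H41.BL.Dec

set_option autoImplicit false

/-!
Structures along a forest: the closure theorem.
-/

namespace Pool.Agent.K7.H41.BL

open MeasureTheory Set
open Pool.Agent.H533R2.VO (RS RIso)
open Pool.Agent.H533R2.VS
open Pool.Agent.TH425.FF
open Pool.Agent.K7.H41.NC (Stp xex xall r_stp b_stp tpn m_dec m_eq m_at Ok p2_act)
open Pool.Agent.W875.TS (p3 IsTree bE rd mx okp sh nz addpt decp V1 rd_mk rd_eq rd_decp rd_decp0 decp_0
  decp_1 decp_2 RS_ext addpt_decp okp_nz okp_comp rd_comp Fx exists_ext cont_decp vcu_V1 bE_pos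
  ts_tree ts_ctree ts_itree)

variable {A : ℕ → ℕ} {V : RS A → Prop}

theorem addpt_cst (R : RS (bE A)) (i : ℕ) (v : Fin (A i) → ℕ) (hv : ¬ ∃ j l, v j ≠ v l) :
    addpt R i v = false := by
  classical
  unfold addpt
  rw [if_neg hv]

theorem cont_addpt : Continuous (addpt : RS (bE A) → RS A) := by
  classical
  refine continuous_pi fun i => continuous_pi fun v => ?_
  unfold addpt
  by_cases hv : ∃ j l, v j ≠ v l
  · simp only [if_pos hv]
    exact (continuous_apply _).comp (continuous_apply _)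
  · simp only [if_neg hv]
    exact continuous_const

theorem v1_iff (hI : Inv V) (R : RS (bE A)) : V1 V R ↔ V (addpt R) ∧ decp (addpt R) = R := by
  refine and_congr ⟨fun h => h 1, fun h σ => ?_⟩ Iff.rfl
  refine hI _ _ ⟨σ.symm, fun i v => ?_⟩ h
  show addpt R i (σ ∘ (σ.symm ∘ v)) = addpt R i v
  congr 1
  funext j
  exact σ.apply_symm_apply _

theorem coan_V1 (hV : Coan V) (hI : Inv V) : Coan (V1 V) := by
  unfold Coan
  have b5 : PolishSpace (RS (bE A)) := polish_of'
  have h1 : {x : RS (bE A) | ¬ V1 V x} =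
      ⋃ k : Bool, (if k then addpt ⁻¹' {z | ¬ V z} else {x | ¬ decp (addpt x) = x}) := by
    ext x
    simp only [mem_iUnion, Bool.exists_bool, Bool.false_eq_true, if_false, if_true,
      mem_ofPred_eq, mem_preimage]
    rw [v1_iff hI]
    tauto
  rw [h1]
  refine AnalyticSet.iUnion ?_
  intro k
  cases k
  · rw [if_neg (by simp)]
    refine MeasurableSet.analyticSet ?_
    exact (measurableSet_eq_fun ((cont_decp.comp cont_addpt).measurable) measurable_id).compl
  · rw [if_pos rfl]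
    exact exk_pre hV cont_addpt.measurable

/-- Removing the additional point is functorial. -/
theorem decp_fx {τ τ' : Equiv.Perm ℕ} (hτ : Fx τ τ') {Q Q' : RS A}
    (h : ∀ (i : ℕ) (v : Fin (A i) → ℕ), Q' i (τ ∘ v) = Q i v) :
    (fun n v => decp Q' n (τ' ∘ v)) = decp Q := by
  refine RS_ext ?_ ?_ ?_ ?_
  · intro u w
    exact (decp_0 _ _).trans (decp_0 _ _).symm
  · intro u w
    exact (decp_1 _ _).trans (decp_1 _ _).symm
  · intro u w z
    exact (decp_2 _ _).trans (decp_2 _ _).symm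
  · intro i c t
    have h6 : rd (fun n v => decp Q' n (τ' ∘ v)) i c t = rd (decp Q') i c (τ' ∘ t) := rfl
    rw [h6]
    cases c with
    | zero => rw [rd_decp0, rd_decp0]
    | succ m =>
      rw [Bool.eq_iff_iff, rd_decp, rd_decp, okp_comp m τ' τ'.injective, hτ.sh, h]

theorem inv_V1 (hI : Inv V) : Inv (V1 V) := by
  rintro R R' ⟨τ', hR⟩ h
  rw [v1_iff hI] at h ⊢
  obtain ⟨h1, h2⟩ := h
  obtain ⟨τ, hτ⟩ := exists_ext τ'
  obtain ⟨Q', hQ'⟩ : ∃ Q' : RS A, Q' = act τ (addpt R) := ⟨_, rfl⟩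
  have h3 : ∀ (i : ℕ) (v : Fin (A i) → ℕ), Q' i (τ ∘ v) = addpt R i v := fun i v => by
    rw [hQ']
    exact x_act τ i v
  have h4 : decp Q' = R' := by
    have h5 := decp_fx hτ h3
    rw [h2] at h5
    funext n v
    have h6 := congrFun (congrFun h5 n) (τ'.symm ∘ v)
    have h7 : τ' ∘ (τ'.symm ∘ v) = v := by
      funext j
      exact τ'.apply_symm_apply _
    have h8 := hR n (τ'.symm ∘ v)
    rw [h7] at h8
    rw [h8, ← h6]
    show decp Q' n v = decp Q' n (τ' ∘ (τ'.symm ∘ v))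
    rw [h7]
  have h5 : addpt R' = Q' := by
    rw [← h4]
    refine addpt_decp Q' fun i v hv => ?_
    rw [hQ']
    show addpt R i (τ.symm ∘ v) = false
    refine addpt_cst R i _ ?_
    rintro ⟨j, l, h6⟩
    exact hv ⟨j, l, fun h7 => h6 (congrArg τ.symm h7)⟩
  rw [h5]
  refine ⟨hI _ _ ⟨τ, h3⟩ h1, h4⟩

theorem okv1 (h : Ok V) : Ok (V1 V) := ⟨vcu_V1 h.vc, coan_V1 h.co h.iv, inv_V1 h.iv⟩

theorem rst_0 (p : List ℕ) (z : RS (bE A)) (t : Fin 2 → ℕ) : rst p z 0 t = false := by
  rw [← Bool.not_eq_true]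
  exact fun h => (Pool.Agent.W875.TS.mk_0 _ _ _ _ _).1 h

theorem rst_1 (p : List ℕ) (z : RS (bE A)) (t : Fin 2 → ℕ) : rst p z 1 t = false := by
  rw [← Bool.not_eq_true]
  exact fun h => (Pool.Agent.W875.TS.mk_1 _ _ _ _ _).1 h

theorem rst_2 (p : List ℕ) (z : RS (bE A)) (t : Fin 3 → ℕ) : rst p z 2 t = false := by
  rw [← Bool.not_eq_true]
  exact fun h => (Pool.Agent.W875.TS.mk_2 _ _ _ _ _).1 h

theorem rd_rst (p : List ℕ) (z : RS (bE A)) (i c : ℕ) (t : Fin (A i) → ℕ) :
    rd (rst p z) i c t = true ↔ rd z i c t = true ∨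
      ((∀ j l, t j = t l) ∧ ∃ m, c = m + 1 ∧ (∃ j : Fin (A i), m.testBit j = true) ∧
      ∃ t' : Fin (A i) → ℕ, (∀ j : Fin (A i), m.testBit j = true → t' j = t j) ∧
        (∃ j l, t' j ≠ t' l) ∧ rd z i c t' = true) := rd_mk _ _ _ _ _ _ _

open Classical in
theorem pcr : PCanon (rst (A := A)) (rmp (a := bE A)) where
  meas p := b_mk (fun _ _ => measurable_const) (fun _ _ => measurable_const)
    (fun _ _ _ => measurable_const) fun i c t => (b_rd i c t).or (measurable_const.and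
      (Measurable.exists fun _ => measurable_const.and (measurable_const.and
        (Measurable.exists fun _ => measurable_const.and (measurable_const.and (b_rd i c _))))))
  dmeas p := by
    refine measurable_pi_iff.2 fun i => measurable_pi_iff.2 fun t => ?_
    show Measurable fun z : RS (bE A) => if ∃ j l, t j ≠ t l then z i t else false
    by_cases h : ∃ j l, t j ≠ t l
    · simp only [if_pos h]
      exact m_at i t
    · simp only [if_neg h]
      exact measurable_const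
  cact σ p z := by
    have e2 : ∀ {k : ℕ} (t : Fin k → ℕ), t = σ ∘ (σ.symm ∘ t) := fun t => by
      funext j
      exact (σ.apply_symm_apply _).symm
    refine RS_ext ?_ ?_ ?_ ?_
    · intro u v
      exact (rst_0 _ _ _).trans (rst_0 p z (σ.symm ∘ ![u, v])).symm
    · intro u v
      exact (rst_1 _ _ _).trans (rst_1 p z (σ.symm ∘ ![u, v])).symm
    · intro u v w
      exact (rst_2 _ _ _).trans (rst_2 p z (σ.symm ∘ ![u, v, w])).symm
    · intro i c t
      rw [Bool.eq_iff_iff, rd_rst]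
      refine Iff.trans ?_ (rd_rst p z i c (σ.symm ∘ t)).symm
      conv_lhs => rw [e2 t]
      refine or_congr (by rw [rd_act]) (and_congr (forall_congr' fun j => forall_congr' fun l =>
        σ.injective.eq_iff) (exists_congr fun m => and_congr Iff.rfl (and_congr Iff.rfl
          (xex (tpn σ _) fun t' => and_congr (forall_congr' fun j => imp_congr Iff.rfl
            σ.injective.eq_iff) (and_congr (exists_congr fun j => exists_congr fun l =>
              not_congr σ.injective.eq_iff) ?_)))))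
      rw [show tpn σ _ t' = σ ∘ t' from rfl, rd_act]
  dact σ p z := by
    funext i t
    show (if ∃ j l, t j ≠ t l then z i (σ.symm ∘ t) else false) =
      (if ∃ j l, (σ.symm ∘ t) j ≠ (σ.symm ∘ t) l then z i (σ.symm ∘ t) else false)
    have h : (∃ j l, t j ≠ t l) ↔ ∃ j l, (σ.symm ∘ t) j ≠ (σ.symm ∘ t) l :=
      exists_congr fun j => exists_congr fun l => (not_congr σ.symm.injective.eq_iff).symm
    by_cases h1 : ∃ j l, t j ≠ t l
    · rw [if_pos h1, if_pos (h.1 h1)]
    · rw [if_neg h1, if_neg fun h2 => h1 (h.2 h2)]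

theorem Ok.or {a : ℕ → ℕ} {V W : RS a → Prop} (h : Ok V) (h' : Ok W) : Ok fun x => V x ∨ W x :=
  ⟨vs_uni a V W h.vc h'.vc h.co h'.co h.iv h'.iv, (vs_kun a V W h.co h'.co h.iv h'.iv).1,
    (vs_kun a V W h.co h'.co h.iv h'.iv).2⟩

theorem ok_dec (a : ℕ → ℕ) : Ok (DecG : RS a → Prop) := ⟨vs_dec a, (vs_kde a).1, (vs_kde a).2⟩

theorem okvn (h : Ok V) : Ok (VN V) := Ok.or (ok_dec (bE A)) ((okv1 h).pexp pcr)

/-- The class of the structures along a forest. -/
def FW (PA EQ : List ℕ → RS A → ℕ → ℕ → Prop) (V : RS A → Prop) : RS A → Prop :=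
  PExp (fun p x => cod (PA p x) (EQ p x) x) (dcx (A := A)) (IsTree 2 (VN V))

/-- **The closure theorem.** -/
theorem Cnf.ok {PA EQ : List ℕ → RS A → ℕ → ℕ → Prop} (h : Cnf PA EQ) (hA : ∀ i, 0 < A i)
    (hV : Ok V) : Ok (FW PA EQ V) := by
  have h1 := okvn hV
  have h2 : Ok (IsTree 2 (VN V) : RS (bE A) → Prop) :=
    ⟨ts_tree (bE A) (bE_pos hA) 2 rfl _ h1.vc, ts_ctree (bE A) 2 _ h1.co, ts_itree (bE A) 2 _⟩
  exact h2.pexp h.pcn

theorem fw_of {PA EQ : List ℕ → RS A → ℕ → ℕ → Prop} {x : RS A} {p : List ℕ}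
    (h : Fst (PA p x) (EQ p x)) (hF : Fib (PA p x) (EQ p x) V x) (hx : Fam (PA p x) (EQ p x) x) :
    FW PA EQ V x := ⟨p, h.isTree hF, h.dcx_cod hx p⟩

end Pool.Agent.K7.H41.BL
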